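import Mathlib
import Pool.Agent.Helper35.YG.YE
import Pool.Agent.Helper99.YG3

/-!
# The field case (offer YG-11)

`YE` structures over `E` whose `bar`-fixed nonzero elements are units generate finite groups.
-/

set_option autoImplicit false

open Polynomial Matrix

namespace Pool.Agent.Helper49.YG

open Pool.Agent.Helper35.YG

/-- The statement `triple`. -/
def TripleStatement : Prop :=
  ∀ {n m : ℕ} (_ : Odd n) {E Γ : Type} [CommRing E] [Nontrivial E] [Group Γ] {ε : P →+* E}
    (_ : Function.Surjective ε) (_ : ε (Ph n) = 0) (bar : E →+* E)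
    (_ : bar (ε X) = ε X ^ (n-1)) (D : YE n m E Γ ε) (i j k : Fin m) (_ : i ≠ j)
    (_ : i ≠ k) (_ : j ≠ k),
    ∃ φ : SpecialLinearGroup (Fin 2) E →* Γ, (∀ e, φ (uu e) = D.U i j e) ∧
      (∀ e, φ (vv e) = D.U i k (bar e)) ∧
      (∀ e, φ (uu 1 * vv e * uu 1) = D.U j k e) ∧
      (∀ e, D.x i * D.U i j e * (D.x i)⁻¹ = D.U i j (ε X * e)) ∧
      D.x j = D.U i j 1 * (D.x i)⁻¹ * D.U i j 1 ∧
      D.x k = D.U i k 1 * (D.x i)⁻¹ * D.U i k 1 ∧
      (∀ h, φ (dd (ε X ^ ((n+1)/2)) (ε X ^ ((n-1)/2)) h) = D.x i)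

/-- The statement `exists_QE`. -/
def ExistsQEStatement : Prop :=
  ∀ {n : ℕ} (_ : Odd n) {E : Type} [CommRing E] [Finite E] [Nontrivial E] (ε : P →+* E)
    (bar : E →+* E) (_ : Function.Surjective ε) (_ : ε (Ph n) = 0)
    (_ : bar (ε X) = ε X ^ (n-1)) (_ : ∀ z, bar z = z → z ≠ 0 → IsUnit z),
    ∃ (F : Type) (_ : Field F) (_ : Fintype F) (_ : CharP F 2) (_ : Algebra F E) (q : QE F E),
      q.bar = bar ∧ q.η = ε X ^ ((n+1)/2) ∧ (Fintype.card F < 4 → ε X ^ 3 = 1)

/-- The statement `main_field`. -/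
def MainFieldStatement : Prop :=
  ∀ {F E Γ : Type} [Field F] [Fintype F] [CharP F 2] [CommRing E] [Nontrivial E] [Algebra F E]
    [Group Γ] (h2 : (2:E)=0) (_ : 4 ≤ Fintype.card F) (q : QE F E)
    (φ : SpecialLinearGroup (Fin 2) E →* Γ) (τ : Γ) (s : ℕ → Γ) (K : ℕ) (_ : τ*τ=1)
    (_ : ∀ g, τ*φ g*τ=φ (q.barSL g)) (_ : ∀ j<K, s j*s j=1)
    (_ : ∀ j<K, Commute (s j) τ)
    (_ : ∀ j<K, Commute (s j) (φ (dd q.η (q.bar q.η) q.η_bar)))
    (_ : ∀ j<K, ∀ e, Commute (s j) (φ (uu e)))
    (_ : ∀ j<K, 1≤j → ∀ g, Commute (s j) (φ g))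
    (_ : ∀ i j, j<K → i+2≤j → Commute (s i) (s j))
    (_ : ∀ j, j+1<K → s j*s (j+1)*s j=s (j+1)*s j*s (j+1))
    (_ : 0<K → s 0*(φ (JJ h2)*τ)*s 0=(φ (JJ h2)*τ)*s 0*(φ (JJ h2)*τ)),
    Finite (Subgroup.closure (Set.range φ ∪ {τ} ∪ {g | ∃ j<K, g=s j}))

lemma sl2_ext {R : Type*} [CommRing R] {A B : SpecialLinearGroup (Fin 2) R}
    (h00 : A 0 0 = B 0 0) (h01 : A 0 1 = B 0 1) (h10 : A 1 0 = B 1 0) (h11 : A 1 1 = B 1 1) :
    A = B := by
  ext i j
  fin_cases i <;> fin_cases j <;> assumption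

lemma sl2_mul_apply {R : Type*} [CommRing R] (A B : SpecialLinearGroup (Fin 2) R)
    (i j : Fin 2) : (A * B) i j = A i 0 * B 0 j + A i 1 * B 1 j := by
  change (A.1 * B.1) i j = _
  rw [Matrix.mul_apply, Fin.sum_univ_two]

section gen

variable {R : Type*} [CommRing R]

lemma uu_00 (x : R) : (uu x) 0 0 = 1 := rfl
lemma uu_01 (x : R) : (uu x) 0 1 = x := rfl
lemma uu_10 (x : R) : (uu x) 1 0 = 0 := rfl
lemma uu_11 (x : R) : (uu x) 1 1 = 1 := rfl
lemma vv_00 (x : R) : (vv x) 0 0 = 1 := rfl
lemma vv_01 (x : R) : (vv x) 0 1 = 0 := rfl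
lemma vv_10 (x : R) : (vv x) 1 0 = x := rfl
lemma vv_11 (x : R) : (vv x) 1 1 = 1 := rfl
lemma dd_00 (x y : R) (h : x * y = 1) : (dd x y h) 0 0 = x := rfl
lemma dd_01 (x y : R) (h : x * y = 1) : (dd x y h) 0 1 = 0 := rfl
lemma dd_10 (x y : R) (h : x * y = 1) : (dd x y h) 1 0 = 0 := rfl
lemma dd_11 (x y : R) (h : x * y = 1) : (dd x y h) 1 1 = y := rfl
lemma JJ_00 (h2 : (2 : R) = 0) : (JJ h2) 0 0 = 0 := rfl
lemma JJ_01 (h2 : (2 : R) = 0) : (JJ h2) 0 1 = 1 := rfl
lemma JJ_10 (h2 : (2 : R) = 0) : (JJ h2) 1 0 = 1 := rfl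
lemma JJ_11 (h2 : (2 : R) = 0) : (JJ h2) 1 1 = 0 := rfl

lemma sl2_det (M : SpecialLinearGroup (Fin 2) R) : M 0 0 * M 1 1 - M 0 1 * M 1 0 = 1 := by
  have hdet := M.det_coe
  rwa [Matrix.det_fin_two] at hdet

/-- `SL_2` is generated by elementary matrices, over a ring where `z^k = z`, `k ≥ 3`. -/
theorem sl2_gen {k : ℕ} (hk : 3 ≤ k) (hz : ∀ z : R, z ^ k = z)
    (S : Submonoid (SpecialLinearGroup (Fin 2) R))
    (hu : ∀ x, uu x ∈ S) (hv : ∀ x, vv x ∈ S) (M : SpecialLinearGroup (Fin 2) R) : M ∈ S := by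
  have key : ∀ (M : SpecialLinearGroup (Fin 2) R) (y : R), M 1 0 * y = 1 → M ∈ S := by
    intro M y hy
    have hdet := sl2_det M
    have h1 : M = uu ((M 0 0 - 1) * y) * vv (M 1 0) * uu ((M 1 1 - 1) * y) := by
      apply sl2_ext <;> simp only [sl2_mul_apply, uu_00, uu_01, uu_10, uu_11, vv_00, vv_01,
        vv_10, vv_11]
      · linear_combination (-(M 0 0 - 1)) * hy
      · linear_combination (-(M 0 1) - (M 1 1 - 1) * y * (M 0 0 - 1)) * hy + (-y) * hdet
      · ring
      · linear_combination (-(M 1 1 - 1)) * hy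
    rw [h1]
    exact S.mul_mem (S.mul_mem (hu _) (hv _)) (hu _)
  obtain ⟨m, rfl⟩ : ∃ m, k = m + 3 := ⟨k - 3, by omega⟩
  set c := M 1 0 with hc
  set e := c ^ (m + 2) with he
  have hec : e * c = c := by rw [he, ← pow_succ]; exact hz c
  have hee : e * e = e := by
    have : e * e = (e * c) * c ^ (m + 1) := by rw [he]; ring
    rw [this, hec, he]; ring
  have hdet := sl2_det M
  have h1 : M = vv (-(1 - e)) * (vv (1 - e) * M) := by
    apply sl2_ext <;> simp only [sl2_mul_apply, vv_00, vv_01, vv_10, vv_11] <;> ring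
  rw [h1]
  refine S.mul_mem (hv _) (key _ (c ^ (m + 1) + (1 - e) * M 1 1) ?_)
  rw [sl2_mul_apply, vv_10, vv_11]
  rw [← hc] at hdet ⊢
  have hcc : c * c ^ (m + 1) = e := by rw [he]; ring
  have hce : (1 - e) * c ^ (m + 1) = 0 := by
    have : (1 - e) * c ^ (m + 1) = (c - e * c) * c ^ m := by ring
    rw [this, hec]; ring
  linear_combination (M 0 0) * hce + hcc + (M 1 1 * (-1)) * hec + (M 0 0 * M 1 1) * hee +
    (1 - e) * hdet + (M 0 1) * (-hec)

end gen

/-- additive generation of `E` by `1 + ζ^k` -/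
theorem E_ind {n : ℕ} (hn : Odd n) {E : Type*} [CommRing E] {ε : P →+* E}
    (hε : Function.Surjective ε) (hPh : ε (Ph n) = 0) {p : E → Prop}
    (hadd : ∀ e f, p e → p f → p (e + f)) (hk : ∀ k : ℕ, p (1 + ε X ^ k)) (e : E) : p e := by
  have e2 := E_char2 ε hε (1 : E)
  have key : ∀ f : P, p (ε ((1 + X) * f)) := by
    intro f
    induction f using P_induction with
    | h0 =>
      have := hk 0
      rw [pow_zero, e2] at this
      rwa [mul_zero, map_zero]
    | hX j =>
      have h1 : ε ((1 + X) * X ^ j) = (1 + ε X ^ j) + (1 + ε X ^ (j + 1)) := by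
        rw [map_mul, map_add, map_one, map_pow]
        linear_combination -e2
      rw [h1]
      exact hadd _ _ (hk _) (hk _)
    | hadd g h hg hh =>
      rw [mul_add, map_add]
      exact hadd _ _ hg hh
  obtain ⟨κ, hκ⟩ := exists_kappa hn
  obtain ⟨g, rfl⟩ := hε e
  have h3 := key (κ * g)
  have h4 : ε ((1 + X) * (κ * g)) = ε g := by
    have h5 : (Ph n + 1 : P) = (1 + X) * κ := by
      rw [← hκ]; linear_combination P_two
    rw [← mul_assoc, ← h5, map_mul, map_add, hPh, map_one, zero_add, one_mul]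
  rwa [h4] at h3

section YE

variable {n m : ℕ} {E Γ : Type} [CommRing E] [Group Γ] {ε : P →+* E}

lemma U_zero (D : YE n m E Γ ε) {i j : Fin m} (hij : i ≠ j) : D.U i j 0 = 1 := by
  have := D.U_add i j hij 0 0
  rw [add_zero] at this
  exact left_eq_mul.mp this

lemma U_self (hε : Function.Surjective ε) (D : YE n m E Γ ε) {i j : Fin m} (hij : i ≠ j) (e : E) :
    D.U i j e * D.U i j e = 1 := by
  rw [← D.U_add i j hij, E_char2 ε hε, U_zero D hij]

lemma U_inv (hε : Function.Surjective ε) (D : YE n m E Γ ε) {i j : Fin m} (hij : i ≠ j) (e : E) :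
    (D.U i j e)⁻¹ = D.U i j e := inv_eq_of_mul_eq_one_left (U_self hε D hij e)

lemma U_comm (D : YE n m E Γ ε) {i j : Fin m} (hij : i ≠ j) (e f : E) :
    D.U i j e * D.U i j f = D.U i j f * D.U i j e := by
  rw [← D.U_add i j hij, ← D.U_add i j hij, add_comm]

/-- two additive families agreeing on `1 + ζ^k` are equal -/
lemma U_ext (hn : Odd n) (hε : Function.Surjective ε) (hPh : ε (Ph n) = 0) {U V : E → Γ}
    (hU : ∀ e f, U (e + f) = U e * U f) (hV : ∀ e f, V (e + f) = V e * V f)
    (h : ∀ k : ℕ, U (1 + ε X ^ k) = V (1 + ε X ^ k)) (e : E) : U e = V e :=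
  E_ind hn hε hPh (p := fun e => U e = V e)
    (fun e f he hf => by rw [hU, hV, he, hf]) h e

lemma pow_red {x : Γ} (hn : 0 < n) (hx : x ^ n = 1) (k : ℕ) : x ^ ((n - 1) * k) = (x ^ k)⁻¹ := by
  rw [eq_inv_iff_mul_eq_one, ← pow_add]
  have : (n - 1) * k + k = n * k := by
    obtain ⟨r, rfl⟩ : ∃ r, n = r + 1 := ⟨n - 1, by omega⟩
    rw [Nat.add_sub_cancel]; ring
  rw [this, pow_mul, hx, one_pow]

lemma U_bar (hn : Odd n) (bar : E →+* E)
    (hbar : bar (ε X) = ε X ^ (n-1)) (D : YE n m E Γ ε) {i j : Fin m} (hij : i ≠ j) (k : ℕ) :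
    D.U i j (bar (1 + ε X ^ k)) = (D.x i ^ k)⁻¹ * (D.x j ^ k)⁻¹ := by
  rw [map_add, map_one, map_pow, hbar, ← pow_mul, D.hU i j hij, pow_red hn.pos (D.rel.pow i),
    pow_red hn.pos (D.rel.pow j)]

/-- `U j i e = U i j (bar e)` -/
lemma U_swap (hn : Odd n) (hε : Function.Surjective ε) (hPh : ε (Ph n) = 0) (bar : E →+* E)
    (hbar : bar (ε X) = ε X ^ (n-1)) (D : YE n m E Γ ε) {i j : Fin m} (hij : i ≠ j) (e : E) :
    D.U j i e = D.U i j (bar e) := by
  refine U_ext hn hε hPh (U := D.U j i) (V := fun e => D.U i j (bar e)) (D.U_add j i hij.symm)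
    (fun e f => ?_) (fun k => ?_) e
  · rw [map_add, D.U_add i j hij]
  · rw [U_bar hn bar hbar D hij, ← _root_.mul_inv_rev, ← D.hU j i hij.symm,
      U_inv hε D hij.symm]

/-- `τ U i j e τ = U i j (bar e)` -/
lemma U_tau (hn : Odd n) (hε : Function.Surjective ε) (hPh : ε (Ph n) = 0) (bar : E →+* E)
    (hbar : bar (ε X) = ε X ^ (n-1)) (D : YE n m E Γ ε) (τ : Γ) (hτ : τ * τ = 1)
    (hτx : ∀ i, τ * D.x i * τ = (D.x i)⁻¹) {i j : Fin m} (hij : i ≠ j) (e : E) :
    τ * D.U i j e * τ = D.U i j (bar e) := by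
  have hτi : τ⁻¹ = τ := inv_eq_of_mul_eq_one_left hτ
  refine U_ext hn hε hPh (U := fun e => τ * D.U i j e * τ) (V := fun e => D.U i j (bar e))
    (fun e f => ?_) (fun e f => ?_) (fun k => ?_) e
  · rw [D.U_add i j hij]
    calc τ * (D.U i j e * D.U i j f) * τ = τ * D.U i j e * (1 * D.U i j f) * τ := by group
      _ = _ := by rw [← hτ]; group
  · rw [map_add, D.U_add i j hij]
  · rw [U_bar hn bar hbar D hij, D.hU i j hij]
    have hp : ∀ i, τ * D.x i ^ k * τ = (D.x i ^ k)⁻¹ := by
      intro i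
      have h1 : τ * D.x i ^ k * τ⁻¹ = (τ * D.x i * τ⁻¹) ^ k := conj_pow.symm
      rw [hτi] at h1
      rw [h1, hτx, inv_pow]
    rw [← hp i, ← hp j]
    calc τ * (D.x i ^ k * D.x j ^ k) * τ = τ * D.x i ^ k * (1 * D.x j ^ k) * τ := by group
      _ = _ := by rw [← hτ]; group

section rels

variable [Nontrivial E] (HT : TripleStatement) (hn : Odd n) (hε : Function.Surjective ε)
  (hPh : ε (Ph n) = 0) (bar : E →+* E) (hbar : bar (ε X) = ε X ^ (n-1)) (D : YE n m E Γ ε)

include HT hn hε hPh hbar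

lemma t_symm {i j : Fin m} (hij : i ≠ j) : D.U j i 1 = D.U i j 1 := by
  rw [U_swap hn hε hPh bar hbar D hij, map_one]

lemma braid1 {i j k : Fin m} (hij : i ≠ j) (hik : i ≠ k) (hjk : j ≠ k) :
    D.U i j 1 * D.U j k 1 * D.U i j 1 = D.U i k 1 := by
  obtain ⟨φ, h1, h2, h3, -⟩ := HT hn hε hPh bar hbar D i j k hij hik hjk
  have c2 : (2 : E) = 0 := by rw [← one_add_one_eq_two]; exact E_char2 ε hε 1
  have h2' := h2 1
  rw [map_one] at h2'
  rw [← h2', ← h1, ← h3, ← map_mul, ← map_mul]
  congr 1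
  apply sl2_ext <;> simp only [sl2_mul_apply, uu_00, uu_01, uu_10, uu_11, vv_00, vv_01, vv_10,
    vv_11]
  · linear_combination c2
  · linear_combination 4 * c2
  · ring
  · linear_combination c2

lemma braid {i j k : Fin m} (hij : i ≠ j) (hik : i ≠ k) (hjk : j ≠ k) :
    D.U i j 1 * D.U j k 1 * D.U i j 1 = D.U j k 1 * D.U i j 1 * D.U j k 1 := by
  rw [braid1 HT hn hε hPh bar hbar D hij hik hjk]
  have h := braid1 HT hn hε hPh bar hbar D hjk.symm hik.symm hij.symm
  rw [t_symm HT hn hε hPh bar hbar D hjk, t_symm HT hn hε hPh bar hbar D hij,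
    t_symm HT hn hε hPh bar hbar D hik] at h
  exact h.symm

lemma R1 {i j k : Fin m} (hij : i ≠ j) (hik : i ≠ k) (hjk : j ≠ k) (e : E) :
    D.U i k 1 * D.U j k e * D.U i k 1 = D.U i j e := by
  obtain ⟨φ, h1, h2, h3, -⟩ := HT hn hε hPh bar hbar D i j k hij hik hjk
  have c2 : (2 : E) = 0 := by rw [← one_add_one_eq_two]; exact E_char2 ε hε 1
  have h2' := h2 1
  rw [map_one] at h2'
  rw [← h2', ← h1, ← h3, ← map_mul, ← map_mul]
  congr 1
  apply sl2_ext <;> simp only [sl2_mul_apply, uu_00, uu_01, uu_10, uu_11, vv_00, vv_01, vv_10,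
    vv_11]
  · linear_combination (1 + e) * c2
  · linear_combination c2
  · linear_combination (2 + 2 * e) * c2
  · linear_combination (1 + e) * c2

lemma R2 {i j k l : Fin m} (hij : i ≠ j) (hik : i ≠ k) (hil : i ≠ l) (hjk : j ≠ k) (hjl : j ≠ l)
    (hkl : k ≠ l) (e : E) :
    D.U k l 1 * D.U i j e * D.U k l 1 = D.U i j (bar e) := by
  have a1 := R1 HT hn hε hPh bar hbar D hij hik hjk e
  -- `t_{lk} U_{jk}(e) t_{lk} = U_{lj}(e)`
  have a2 := R1 HT hn hε hPh bar hbar D hjl.symm hkl.symm hjk e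
  rw [t_symm HT hn hε hPh bar hbar D hkl] at a2
  -- `t_{lk} t_{ki} t_{lk} = t_{li}`
  have a3 := braid1 HT hn hε hPh bar hbar D hkl.symm hil.symm hik.symm
  rw [t_symm HT hn hε hPh bar hbar D hkl, t_symm HT hn hε hPh bar hbar D hik,
    t_symm HT hn hε hPh bar hbar D hil] at a3
  have a4 := R1 HT hn hε hPh bar hbar D hij hil hjl (bar e)
  have a5 := U_swap hn hε hPh bar hbar D hjl e
  rw [← a5] at a4
  have hkk := U_self hε D hkl (1 : E)
  rw [← a4, ← a3, ← a1, ← a2]
  set t := D.U k l 1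
  set r := D.U i k 1
  set u := D.U j k e
  calc t * (r * u * r) * t = t * r * 1 * u * 1 * r * t := by group
    _ = t * r * (t * t) * u * (t * t) * r * t := by rw [hkk]
    _ = _ := by group

lemma R3 {i j k : Fin m} (hij : i ≠ j) (hik : i ≠ k) (hjk : j ≠ k) :
    D.U j k 1 * D.x i * D.U j k 1 = (D.x i)⁻¹ := by
  obtain ⟨φ, h1, h2, h3, -, -, -, h7⟩ := HT hn hε hPh bar hbar D i j k hij hik hjk
  have c2 : (2 : E) = 0 := by rw [← one_add_one_eq_two]; exact E_char2 ε hε 1
  have hz : ε X ^ n = 1 := by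
    have := ε_dvd ε hPh (f := X ^ n) (g := 1) (Ph_dvd n)
    rwa [map_pow, map_one] at this
  have hη : ε X ^ ((n+1)/2) * ε X ^ ((n-1)/2) = 1 := by
    rw [← pow_add]
    obtain ⟨r, hr⟩ := hn
    rw [show (n+1)/2 + (n-1)/2 = n by omega, hz]
  have hη' : ε X ^ ((n-1)/2) * ε X ^ ((n+1)/2) = 1 := by rw [mul_comm]; exact hη
  have h8 : φ (dd (ε X ^ ((n-1)/2)) (ε X ^ ((n+1)/2)) hη') = (D.x i)⁻¹ := by
    rw [eq_inv_iff_mul_eq_one, ← h7 hη, ← map_mul]
    have : dd (ε X ^ ((n-1)/2)) (ε X ^ ((n+1)/2)) hη' * dd (ε X ^ ((n+1)/2)) (ε X ^ ((n-1)/2)) hη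
        = 1 := by
      apply sl2_ext <;> rw [sl2_mul_apply] <;> simp only [dd_00, dd_01, dd_10, dd_11]
      · rw [hη', mul_zero, add_zero]; rfl
      · rw [mul_zero, zero_mul, add_zero]; rfl
      · rw [mul_zero, zero_mul, add_zero]; rfl
      · rw [hη, mul_zero, zero_add]; rfl
    rw [this, map_one]
  rw [← h8, ← h7 hη, ← h3, ← map_mul, ← map_mul]
  congr 1
  apply sl2_ext <;> simp only [sl2_mul_apply, uu_00, uu_01, uu_10, uu_11, vv_00, vv_01, vv_10,
    vv_11, dd_00, dd_01, dd_10, dd_11]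
  · linear_combination (2 * ε X ^ ((n+1)/2) + ε X ^ ((n-1)/2)) * c2
  · linear_combination (3 * ε X ^ ((n+1)/2) + 3 * ε X ^ ((n-1)/2)) * c2
  · linear_combination (ε X ^ ((n+1)/2) + ε X ^ ((n-1)/2)) * c2
  · linear_combination (ε X ^ ((n+1)/2) + 2 * ε X ^ ((n-1)/2)) * c2

end rels

end YE

section grp

variable {G : Type*} [Group G]

lemma comm_of {t τ g : G} (ht : t * t = 1) (hτ : τ * τ = 1) (h : t * (τ * g * τ) * t = g) :
    Commute (t * τ) g := by
  change t * τ * g = g * (t * τ)
  calc t * τ * g = (t * (τ * g * 1) * 1) := by group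
    _ = (t * (τ * g * (τ * τ)) * (t * t)) * 1 := by
        rw [hτ, ht]; group
    _ = (t * (τ * g * τ) * (τ * (t * t))) := by group
    _ = (t * (τ * g * τ) * (t * t) * τ) := by rw [ht]; group
    _ = (t * (τ * g * τ) * t) * (t * τ) := by group
    _ = g * (t * τ) := by rw [h]

lemma tau_comm {t τ : G} (hτ : τ * τ = 1) (h : τ * t * τ = t) : t * τ = τ * t := by
  calc t * τ = (τ * t * τ) * τ := by rw [h]
    _ = τ * t * (τ * τ) := by group
    _ = τ * t := by rw [hτ, mul_one]

lemma braid_tau {a b τ : G} (ha : τ * a * τ = a) (hb : τ * b * τ = b)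
    (hab : a * b * a = b * a * b) :
    (a * τ) * (b * τ) * (a * τ) = (b * τ) * (a * τ) * (b * τ) := by
  calc (a * τ) * (b * τ) * (a * τ) = a * (τ * b * τ) * a * τ := by group
    _ = b * (τ * a * τ) * b * τ := by rw [ha, hb, hab]
    _ = _ := by group

end grp

lemma exists_third {m : ℕ} (hm : 3 ≤ m) (i j : Fin m) : ∃ k : Fin m, i ≠ k ∧ j ≠ k := by
  by_contra h
  push Not at h
  have h1 : (Finset.univ : Finset (Fin m)) ⊆ {i, j} := by
    intro k _
    rw [Finset.mem_insert, Finset.mem_singleton]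
    by_cases hk : i = k
    · exact Or.inl hk.symm
    · exact Or.inr (h k hk).symm
  have h2 := Finset.card_le_card h1
  rw [Finset.card_univ, Fintype.card_fin] at h2
  have h3 := Finset.card_le_two (a := i) (b := j)
  omega

theorem core (HT : TripleStatement) (HQ : ExistsQEStatement) (HM : MainFieldStatement)
    {n m : ℕ} (hn : Odd n) (hm : 3 ≤ m) {E : Type} [CommRing E] [Finite E] [Nontrivial E]
    {ε : P →+* E} (bar : E →+* E) (hε : Function.Surjective ε) (hPh : ε (Ph n) = 0)
    (hbar : bar (ε X) = ε X ^ (n-1)) (hfield : ∀ z, bar z = z → z ≠ 0 → IsUnit z)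
    {Γ : Type} [Group Γ] (D : YE n m E Γ ε) (τ : Γ) (hτ : τ * τ = 1)
    (hτx : ∀ i, τ * D.x i * τ = (D.x i)⁻¹) :
    Finite (Subgroup.closure (Set.range D.x)) := by
  obtain ⟨F, iF, iFt, iC, iA, q, hqb, hqη, hsmall⟩ := HQ hn ε bar hε hPh hbar hfield
  have c2 : (2 : E) = 0 := by rw [← one_add_one_eq_two]; exact E_char2 ε hε 1
  have hz : ε X ^ n = 1 := by
    have := ε_dvd ε hPh (f := X ^ n) (g := 1) (Ph_dvd n)
    rwa [map_pow, map_one] at this
  have hη : ε X ^ ((n+1)/2) * ε X ^ ((n-1)/2) = 1 := by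
    rw [← pow_add]
    obtain ⟨r, hr⟩ := hn
    rw [show (n+1)/2 + (n-1)/2 = n by omega, hz]
  -- conjugation formula
  have hconj : ∀ i j : Fin m, i ≠ j → D.x j = D.U i j 1 * (D.x i)⁻¹ * D.U i j 1 := by
    intro i j hij
    obtain ⟨k, hik, hjk⟩ := exists_third hm i j
    obtain ⟨φ, -, -, -, -, h5, -⟩ := HT hn hε hPh bar hbar D i j k hij hik hjk
    exact h5
  by_cases hq : 4 ≤ Fintype.card F
  · -- the main case
    let i0 : Fin m := ⟨0, by omega⟩
    let idx : ℕ → Fin m := fun j => if h : j < m then ⟨j, h⟩ else i0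
    have hidxv : ∀ a (ha : a < m), idx a = ⟨a, ha⟩ := fun a ha => dif_pos ha
    have hidx : ∀ a b, a < m → b < m → a ≠ b → idx a ≠ idx b := by
      intro a b ha hb hab h
      rw [hidxv a ha, hidxv b hb, Fin.mk.injEq] at h
      exact hab h
    obtain ⟨φ, h1, h2, h3, h4, h5, h6, h7⟩ := HT hn hε hPh bar hbar D (idx 0) (idx 1) (idx 2)
      (hidx _ _ (by omega) (by omega) (by omega)) (hidx _ _ (by omega) (by omega) (by omega))
      (hidx _ _ (by omega) (by omega) (by omega))
    obtain ⟨per, hper3, hper, -⟩ := E_period hn ε hε hPh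
    set t : ℕ → ℕ → Γ := fun a b => D.U (idx a) (idx b) 1 with ht
    have ht2 : ∀ a b, a < m → b < m → a ≠ b → t a b * t a b = 1 := by
      intro a b ha hb hab
      exact U_self hε D (hidx a b ha hb hab) 1
    have htτ : ∀ a b, a < m → b < m → a ≠ b → τ * t a b * τ = t a b := by
      intro a b ha hb hab
      have := U_tau hn hε hPh bar hbar D τ hτ hτx (hidx a b ha hb hab) 1
      rw [map_one] at this
      exact this
    have htU : ∀ a b c d, a < m → b < m → c < m → d < m → a ≠ b → a ≠ c → a ≠ d → b ≠ c → b ≠ d →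
        c ≠ d → ∀ e, t c d * D.U (idx a) (idx b) e * t c d = D.U (idx a) (idx b) (bar e) := by
      intro a b c d ha hb hc hd hab hac had hbc hbd hcd e
      exact R2 HT hn hε hPh bar hbar D (hidx _ _ ha hb hab) (hidx _ _ ha hc hac)
        (hidx _ _ ha hd had) (hidx _ _ hb hc hbc) (hidx _ _ hb hd hbd) (hidx _ _ hc hd hcd) e
    have hτU : ∀ a b, a < m → b < m → a ≠ b → ∀ e,
        τ * D.U (idx a) (idx b) e * τ = D.U (idx a) (idx b) (bar e) := by
      intro a b ha hb hab e
      exact U_tau hn hε hPh bar hbar D τ hτ hτx (hidx a b ha hb hab) e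
    have hbb : ∀ e, bar (bar e) = e := by
      intro e; rw [← hqb]; exact q.bar_bar e
    -- commutation of `s` with `U`
    have hsU : ∀ a b c d, a < m → b < m → c < m → d < m → a ≠ b → a ≠ c → a ≠ d → b ≠ c → b ≠ d →
        c ≠ d → ∀ e, Commute (t c d * τ) (D.U (idx a) (idx b) e) := by
      intro a b c d ha hb hc hd hab hac had hbc hbd hcd e
      apply comm_of (ht2 c d hc hd hcd) hτ
      rw [hτU a b ha hb hab, htU a b c d ha hb hc hd hab hac had hbc hbd hcd, hbb]
    let s : ℕ → Γ := fun j => t (j + 2) (j + 3) * τ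
    have hJ : φ (JJ c2) = t 1 2 := by
      have h := h3 1
      change φ (JJ c2) = D.U (idx 1) (idx 2) 1
      rw [← h]
      congr 1
      apply sl2_ext <;> simp only [sl2_mul_apply, uu_00, uu_01, uu_10, uu_11, vv_00, vv_01, vv_10,
        vv_11, JJ_00, JJ_01, JJ_10, JJ_11]
      · linear_combination (-1 : E) * c2
      · linear_combination (-1 : E) * c2
      · ring
      · linear_combination (-1 : E) * c2
    have hqη' : q.bar q.η = ε X ^ ((n-1)/2) := by
      have e1 := q.η_bar
      have e2 : q.η * ε X ^ ((n-1)/2) = 1 := by rw [hqη]; exact hη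
      calc q.bar q.η = (q.η * ε X ^ ((n-1)/2)) * q.bar q.η := by rw [e2, one_mul]
        _ = (q.η * q.bar q.η) * ε X ^ ((n-1)/2) := by ring
        _ = _ := by rw [e1, one_mul]
    have hdd : φ (dd q.η (q.bar q.η) q.η_bar) = D.x (idx 0) := by
      rw [← h7 hη]
      congr 1
      apply sl2_ext <;> simp only [dd_00, dd_01, dd_10, dd_11]
      · exact hqη
      · exact hqη'
    have hgen : ∀ (S : Submonoid (SpecialLinearGroup (Fin 2) E)), (∀ x, uu x ∈ S) →
        (∀ x, vv x ∈ S) → ∀ M, M ∈ S := fun S hu hv M => sl2_gen hper3 hper S hu hv M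
    have hfin := HM c2 hq q φ τ s (m - 3) hτ ?_ ?_ ?_ ?_ ?_ ?_ ?_ ?_ ?_
    · -- conclusion
      set C := Subgroup.closure (Set.range φ ∪ {τ} ∪ {g | ∃ j < m - 3, g = s j}) with hC
      have hφC : ∀ g, φ g ∈ C := fun g => Subgroup.subset_closure (Or.inl (Or.inl ⟨g, rfl⟩))
      have hτC : τ ∈ C := Subgroup.subset_closure (Or.inl (Or.inr rfl))
      have hsC : ∀ j, j < m - 3 → s j ∈ C := fun j hj =>
        Subgroup.subset_closure (Or.inr ⟨j, hj, rfl⟩)
      have htC : ∀ j, j < m - 3 → t (j + 2) (j + 3) ∈ C := by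
        intro j hj
        have h := C.mul_mem (hsC j hj) hτC
        have e : s j * τ = t (j + 2) (j + 3) := by
          change t (j + 2) (j + 3) * τ * τ = _
          rw [mul_assoc, hτ, mul_one]
        rwa [e] at h
      have hx0 : D.x (idx 0) ∈ C := by rw [← hdd]; exact hφC _
      have hx : ∀ a, a < m → D.x (idx a) ∈ C := by
        intro a
        induction a with
        | zero => intro _; exact hx0
        | succ a ih =>
          intro ha
          rcases Nat.lt_or_ge a 2 with h | h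
          · interval_cases a
            · rw [h5, ← h1]
              exact C.mul_mem (C.mul_mem (hφC _) (C.inv_mem hx0)) (hφC _)
            · have h2' := h2 1
              rw [map_one] at h2'
              change D.x (idx 2) ∈ C
              rw [h6, ← h2']
              exact C.mul_mem (C.mul_mem (hφC _) (C.inv_mem hx0)) (hφC _)
          · obtain ⟨b, rfl⟩ : ∃ b, a = b + 2 := ⟨a - 2, by omega⟩
            rw [hconj (idx (b + 2)) (idx (b + 2 + 1)) (hidx _ _ (by omega) (by omega) (by omega))]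
            exact C.mul_mem (C.mul_mem (htC b (by omega)) (C.inv_mem (ih (by omega))))
              (htC b (by omega))
      have hle : Subgroup.closure (Set.range D.x) ≤ C := by
        rw [Subgroup.closure_le]
        rintro _ ⟨i, rfl⟩
        have := hx i.1 i.2
        rwa [hidxv i.1 i.2] at this
      exact Finite.Set.subset (C : Set Γ) hle
    · -- `τ φ(g) τ = φ(bar g)`
      intro g
      let S : Submonoid (SpecialLinearGroup (Fin 2) E) :=
        { carrier := {g | τ * φ g * τ = φ (q.barSL g)}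
          mul_mem' := by
            intro a b ha hb
            change τ * φ (a * b) * τ = φ (q.barSL (a * b))
            change τ * φ a * τ = φ (q.barSL a) at ha
            change τ * φ b * τ = φ (q.barSL b) at hb
            rw [map_mul, map_mul, map_mul, ← ha, ← hb]
            calc τ * (φ a * φ b) * τ = τ * φ a * 1 * φ b * τ := by group
              _ = _ := by rw [← hτ]; group
          one_mem' := by
            change τ * φ 1 * τ = φ (q.barSL 1)
            rw [map_one, map_one, map_one, mul_one, hτ] }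
      refine hgen S ?_ ?_ g
      · intro e
        change τ * φ (uu e) * τ = φ (q.barSL (uu e))
        have e1 : q.barSL (uu e) = uu (bar e) := by
          apply sl2_ext
          · exact map_one q.bar
          · change q.bar e = bar e
            rw [hqb]
          · exact map_zero q.bar
          · exact map_one q.bar
        rw [e1, h1, h1, hτU 0 1 (by omega) (by omega) (by omega)]
      · intro e
        change τ * φ (vv e) * τ = φ (q.barSL (vv e))
        have e1 : q.barSL (vv e) = vv (bar e) := by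
          apply sl2_ext
          · exact map_one q.bar
          · exact map_zero q.bar
          · change q.bar e = bar e
            rw [hqb]
          · exact map_one q.bar
        rw [e1, h2, h2, hτU 0 2 (by omega) (by omega) (by omega)]
    · -- `s j` is an involution
      intro j hj
      change t (j + 2) (j + 3) * τ * (t (j + 2) (j + 3) * τ) = 1
      have h := htτ (j + 2) (j + 3) (by omega) (by omega) (by omega)
      calc t (j + 2) (j + 3) * τ * (t (j + 2) (j + 3) * τ) =
          t (j + 2) (j + 3) * (τ * t (j + 2) (j + 3) * τ) := by group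
        _ = 1 := by rw [h, ht2 _ _ (by omega) (by omega) (by omega)]
    · intro j hj
      apply comm_of (ht2 _ _ (by omega) (by omega) (by omega)) hτ
      have h := tau_comm hτ (htτ (j + 2) (j + 3) (by omega) (by omega) (by omega))
      calc t (j + 2) (j + 3) * (τ * τ * τ) * t (j + 2) (j + 3) =
          t (j + 2) (j + 3) * (1 * τ) * t (j + 2) (j + 3) := by rw [hτ]
        _ = (t (j + 2) (j + 3) * τ) * t (j + 2) (j + 3) := by group
        _ = τ * (t (j + 2) (j + 3) * t (j + 2) (j + 3)) := by rw [h]; group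
        _ = τ := by rw [ht2 _ _ (by omega) (by omega) (by omega), mul_one]
    · intro j hj
      rw [hdd]
      apply comm_of (ht2 _ _ (by omega) (by omega) (by omega)) hτ
      rw [hτx]
      have h := R3 HT hn hε hPh bar hbar D (i := idx 0) (j := idx (j + 2)) (k := idx (j + 3))
        (hidx _ _ (by omega) (by omega) (by omega)) (hidx _ _ (by omega) (by omega) (by omega))
        (hidx _ _ (by omega) (by omega) (by omega))
      have h' := congrArg (fun g => g⁻¹) h
      simp only [_root_.mul_inv_rev, inv_inv] at h'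
      rw [U_inv hε D (hidx _ _ (by omega) (by omega) (by omega)), ← mul_assoc] at h'
      exact h'
    · intro j hj e
      rw [h1]
      exact hsU 0 1 (j + 2) (j + 3) (by omega) (by omega) (by omega) (by omega) (by omega)
        (by omega) (by omega) (by omega) (by omega) (by omega) e
    · intro j hj hj1 g
      let S : Submonoid (SpecialLinearGroup (Fin 2) E) :=
        { carrier := {g | Commute (s j) (φ g)}
          mul_mem' := by
            intro a b ha hb
            change Commute (s j) (φ (a * b))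
            rw [map_mul]
            exact Commute.mul_right ha hb
          one_mem' := by
            change Commute (s j) (φ 1)
            rw [map_one]
            exact Commute.one_right _ }
      refine hgen S ?_ ?_ g
      · intro e
        change Commute (s j) (φ (uu e))
        rw [h1]
        exact hsU 0 1 (j + 2) (j + 3) (by omega) (by omega) (by omega) (by omega) (by omega)
          (by omega) (by omega) (by omega) (by omega) (by omega) e
      · intro e
        change Commute (s j) (φ (vv e))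
        rw [h2]
        exact hsU 0 2 (j + 2) (j + 3) (by omega) (by omega) (by omega) (by omega) (by omega)
          (by omega) (by omega) (by omega) (by omega) (by omega) (bar e)
    · intro i j hj hij
      have h := hsU (j + 2) (j + 3) (i + 2) (i + 3) (by omega) (by omega) (by omega) (by omega)
        (by omega) (by omega) (by omega) (by omega) (by omega) (by omega) 1
      refine Commute.mul_right h ?_
      apply comm_of (ht2 _ _ (by omega) (by omega) (by omega)) hτ
      have h := tau_comm hτ (htτ (i + 2) (i + 3) (by omega) (by omega) (by omega))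
      calc t (i + 2) (i + 3) * (τ * τ * τ) * t (i + 2) (i + 3) =
          t (i + 2) (i + 3) * (1 * τ) * t (i + 2) (i + 3) := by rw [hτ]
        _ = (t (i + 2) (i + 3) * τ) * t (i + 2) (i + 3) := by group
        _ = τ * (t (i + 2) (i + 3) * t (i + 2) (i + 3)) := by rw [h]; group
        _ = τ := by rw [ht2 _ _ (by omega) (by omega) (by omega), mul_one]
    · intro j hj
      apply braid_tau (htτ _ _ (by omega) (by omega) (by omega))
        (htτ _ _ (by omega) (by omega) (by omega))
      exact braid HT hn hε hPh bar hbar D (hidx _ _ (by omega) (by omega) (by omega))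
        (hidx _ _ (by omega) (by omega) (by omega)) (hidx _ _ (by omega) (by omega) (by omega))
    · intro hK
      rw [hJ]
      apply braid_tau (htτ _ _ (by omega) (by omega) (by omega))
        (htτ _ _ (by omega) (by omega) (by omega))
      exact (braid HT hn hε hPh bar hbar D (i := idx 1) (j := idx 2) (k := idx 3)
        (hidx _ _ (by omega) (by omega) (by omega))
        (hidx _ _ (by omega) (by omega) (by omega))
        (hidx _ _ (by omega) (by omega) (by omega))).symm
  · -- the small case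
    have hz3 : ε X ^ 3 = 1 := hsmall (by omega)
    have hx3 : ∀ i, D.x i ^ 3 = 1 := by
      intro i
      obtain ⟨j, hij, -⟩ := exists_third hm i i
      obtain ⟨k, hik, hjk⟩ := exists_third hm i j
      obtain ⟨φ, -, -, -, -, -, -, h7⟩ := HT hn hε hPh bar hbar D i j k hij hik hjk
      rw [← h7 hη, ← map_pow]
      have : (dd (ε X ^ ((n+1)/2)) (ε X ^ ((n-1)/2)) hη) ^ 3 = 1 := by
        have e1 : (ε X ^ ((n+1)/2)) ^ 3 = 1 := by rw [← pow_mul, mul_comm, pow_mul, hz3, one_pow]
        have e2 : (ε X ^ ((n-1)/2)) ^ 3 = 1 := by rw [← pow_mul, mul_comm, pow_mul, hz3, one_pow]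
        rw [pow_succ, sq]
        apply sl2_ext <;> simp only [sl2_mul_apply, dd_00, dd_01, dd_10, dd_11]
        · change _ = (1 : E)
          linear_combination e1
        · change _ = (0 : E)
          ring
        · change _ = (0 : E)
          ring
        · change _ = (1 : E)
          linear_combination e2
      rw [this, map_one]
    have hy : YRel 3 D.x := ⟨hx3, D.rel.rel⟩
    obtain ⟨f, hf⟩ := exists_hom hy
    have hYfin := Pool.Agent.Helper99.YG3.Y_three_finite m
    have hle : Subgroup.closure (Set.range D.x) ≤ f.range := by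
      rw [Subgroup.closure_le]
      rintro _ ⟨i, rfl⟩
      exact ⟨gen m 3 i, hf i⟩
    have hr : (f.range : Set Γ).Finite := Set.finite_range f
    exact (hr.subset hle).to_subtype

/-- The field case, from the three inputs. -/
theorem field_case' (HT : TripleStatement) (HQ : ExistsQEStatement) (HM : MainFieldStatement)
    {n m : ℕ} (hn : Odd n) (hm : 3 ≤ m) (E : Type) [CommRing E] [Finite E] [Nontrivial E]
    (ε : P →+* E) (bar : E →+* E) (hε : Function.Surjective ε) (hPh : ε (Ph n) = 0)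
    (hbar : bar (ε X) = ε X ^ (n-1)) (hfield : ∀ z, bar z = z → z ≠ 0 → IsUnit z)
    (Γ : Type) [Group Γ] (D : YE n m E Γ ε) (hD : Subgroup.closure (Set.range D.x) = ⊤) :
    Finite Γ := by
  let L : Γ × Γ →* Equiv.Perm (Γ × Γ) := MulAction.toPermHom (Γ × Γ) (Γ × Γ)
  have hL : Function.Injective L := MulAction.toPerm_injective
  let τ : Equiv.Perm (Γ × Γ) := Equiv.prodComm Γ Γ
  have hτ : τ * τ = 1 := by ext x <;> rfl
  have hτL : ∀ a b : Γ, τ * L (a, b) * τ = L (b, a) := by
    intro a b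
    ext x <;> rfl
  let D' : YE n m E (Equiv.Perm (Γ × Γ)) ε :=
    { x := fun i => L (D.x i, (D.x i)⁻¹)
      rel := by
        refine ⟨fun k => ?_, fun k l hkl i => ?_⟩
        · rw [← map_pow, Prod.pow_mk, inv_pow, D.rel.pow, inv_one]
          exact map_one L
        · rw [← map_zpow, ← map_zpow, ← map_mul, ← map_mul, ← map_one L]
          congr 1
          ext
          · exact D.rel.rel k l hkl i
          · have h := D.rel.rel k l hkl (-i)
            change ((D.x k)⁻¹ ^ i * (D.x l)⁻¹ ^ i) * ((D.x k)⁻¹ ^ i * (D.x l)⁻¹ ^ i) = 1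
            rw [_root_.inv_zpow', _root_.inv_zpow']
            exact h
      U := fun i j e => L (D.U i j e, D.U j i e)
      U_add := by
        intro i j hij e f
        rw [← map_mul, Prod.mk_mul_mk, ← D.U_add i j hij, ← D.U_add j i hij.symm]
      hU := by
        intro i j hij k
        rw [← map_pow L, ← map_pow L, ← map_mul L, Prod.pow_mk, Prod.pow_mk, Prod.mk_mul_mk,
          D.hU i j hij]
        congr 2
        rw [← U_inv hε D hij.symm, D.hU j i hij.symm, _root_.mul_inv_rev, inv_pow, inv_pow] }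
  have hfin := core HT HQ HM hn hm bar hε hPh hbar hfield D' τ hτ (fun i => by
    change τ * L (D.x i, (D.x i)⁻¹) * τ = (L (D.x i, (D.x i)⁻¹))⁻¹
    rw [hτL, ← map_inv, Prod.inv_mk, inv_inv])
  set G2 : Subgroup (Γ × Γ) := Subgroup.closure (Set.range fun i => (D.x i, (D.x i)⁻¹)) with hG2
  have e1 : G2.map L = Subgroup.closure (Set.range D'.x) := by
    rw [hG2, MonoidHom.map_closure, ← Set.range_comp]
    rfl
  have f1 : Finite (G2.map L) := by rw [e1]; exact hfin
  have f2 : Finite G2 := (G2.equivMapOfInjective L hL).toEquiv.finite_iff.mpr f1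
  have e2 : G2.map (MonoidHom.fst Γ Γ) = ⊤ := by
    rw [hG2, MonoidHom.map_closure, ← Set.range_comp]
    exact hD
  have f3 : Finite (G2.map (MonoidHom.fst Γ Γ)) := by
    have : ((G2.map (MonoidHom.fst Γ Γ) : Subgroup Γ) : Set Γ).Finite := by
      rw [Subgroup.coe_map]
      exact (Set.toFinite (G2 : Set (Γ × Γ))).image _
    exact this.to_subtype
  rw [e2] at f3
  exact Subgroup.topEquiv.toEquiv.finite_iff.mp f3

end Pool.Agent.Helper49.YG
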