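import Mathlib

set_option autoImplicit false

open Set Filter Topology

namespace Pool.Agent.Helper49

theorem exists_degree {F : ℝ → ℝ} (hF : Continuous F) {f : UnitAddCircle → UnitAddCircle}
    (hf : ∀ x : ℝ, ((F x : ℝ) : UnitAddCircle) = f x) : ∃ m : ℤ, ∀ x, F (x + 1) = F x + m := by
  have h1 : ∀ x, ∃ k : ℤ, (k : ℝ) = F (x + 1) - F x := by
    intro x
    have h2 : ((F (x + 1) - F x : ℝ) : UnitAddCircle) = 0 := by
      rw [AddCircle.coe_sub, hf, hf, AddCircle.coe_add_period, sub_self]
    obtain ⟨n, hn⟩ := (AddCircle.coe_eq_zero_iff (1 : ℝ)).1 h2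
    exact ⟨n, by simpa using hn⟩
  choose k hk using h1
  have hkc : Continuous k := by
    rw [Int.isClosedEmbedding_coe_real.isEmbedding.continuous_iff]
    have : ((fun n : ℤ => (n : ℝ)) ∘ k) = fun x => F (x + 1) - F x := by
      funext x
      exact hk x
    rw [this]
    exact (hF.comp (continuous_add_const 1)).sub hF
  refine ⟨k 0, fun x => ?_⟩
  have : k x = k 0 := PreconnectedSpace.constant inferInstance hkc
  rw [← this, hk x]
  ring

theorem degree_int {F : ℝ → ℝ} {m : ℤ} (hm : ∀ x, F (x + 1) = F x + m) (x : ℝ) (n : ℤ) :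
    F (x + n) = F x + n * m := by
  have hper : Function.Periodic (fun x => F x - m * x) (1 : ℝ) := by
    intro x
    simp only [hm]
    ring
  have := (hper.int_mul n) x
  simp only [mul_one] at this
  linarith

theorem bijective_of_lift {F : ℝ → ℝ} (hF : ContDiff ℝ 1 F) (hd : ∀ x, deriv F x ≠ 0)
    {m : ℤ} (hm : ∀ x, F (x + 1) = F x + m) : Function.Bijective F := by
  have hne : ∀ a b, a < b → F a ≠ F b := by
    intro a b hab h
    obtain ⟨c, -, hc⟩ := exists_deriv_eq_zero hab hF.continuous.continuousOn h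
    exact hd c hc
  have hinj : Function.Injective F := by
    intro a b hab
    rcases lt_trichotomy a b with h | h | h
    · exact absurd hab (hne a b h)
    · exact h
    · exact absurd hab.symm (hne b a h)
  refine ⟨hinj, ?_⟩
  have hm0 : m ≠ 0 := by
    intro h0
    have := hm 0
    rw [h0, Int.cast_zero, add_zero] at this
    have := hinj this
    norm_num at this
  have hm2 : (1 : ℝ) ≤ (m : ℝ) * m := by
    have : (1 : ℤ) ≤ m * m := by
      have := mul_self_pos.2 hm0
      omega
    exact_mod_cast this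
  intro y
  obtain ⟨n, hn⟩ := exists_nat_ge |y - F 0|
  have hn0 : (0 : ℝ) ≤ n := Nat.cast_nonneg n
  have hnm : (n : ℝ) ≤ n * (m * m) := le_mul_of_one_le_right hn0 hm2
  have habs := abs_le.1 hn
  apply mem_range_of_exists_le_of_exists_ge hF.continuous
  · refine ⟨0 + ((-(n * m) : ℤ) : ℝ), ?_⟩
    rw [degree_int hm]
    push_cast
    nlinarith [habs.1]
  · refine ⟨0 + (((n * m) : ℤ) : ℝ), ?_⟩
    rw [degree_int hm]
    push_cast
    nlinarith [habs.2]

/-- The homeomorphism of the line given by a lift. -/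
noncomputable def liftHomeo (F : ℝ → ℝ) (hF : ContDiff ℝ 1 F) (hd : ∀ x, deriv F x ≠ 0)
    {m : ℤ} (hm : ∀ x, F (x + 1) = F x + m) : ℝ ≃ₜ ℝ :=
  (Equiv.ofBijective F (bijective_of_lift hF hd hm)).toHomeomorphOfContinuousOpen
    hF.continuous (isOpenMap_of_hasStrictDerivAt
      (fun x => (hF.contDiffAt (x := x)).hasStrictDerivAt (by norm_num)) hd)

theorem liftHomeo_apply (F : ℝ → ℝ) (hF : ContDiff ℝ 1 F) (hd : ∀ x, deriv F x ≠ 0)
    {m : ℤ} (hm : ∀ x, F (x + 1) = F x + m) (x : ℝ) : liftHomeo F hF hd hm x = F x := rfl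

theorem coe_dist_le (x y : ℝ) : dist (x : UnitAddCircle) (y : UnitAddCircle) ≤ |x - y| := by
  rw [dist_eq_norm, ← AddCircle.coe_sub, UnitAddCircle.norm_eq]
  have := round_le (x - y) 0
  simpa using this

theorem uniformContinuous_of_periodic {ψ : ℝ → ℝ} (hc : Continuous ψ)
    (hper : Function.Periodic ψ (1 : ℝ)) : UniformContinuous ψ := by
  have hg : Continuous (hper.lift : UnitAddCircle → ℝ) := by
    apply (QuotientAddGroup.isQuotientMap_mk _).continuous_iff.2
    exact hc
  have h1 : UniformContinuous (hper.lift : UnitAddCircle → ℝ) :=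
    CompactSpace.uniformContinuous_of_continuous hg
  have h2 : UniformContinuous (fun x : ℝ => (x : UnitAddCircle)) := by
    apply LipschitzWith.uniformContinuous (K := 1)
    apply LipschitzWith.mk_one
    intro x y
    rw [Real.dist_eq]
    exact coe_dist_le x y
  exact h1.comp h2

theorem bounded_of_periodic {ψ : ℝ → ℝ} (hc : Continuous ψ)
    (hper : Function.Periodic ψ (1 : ℝ)) : ∃ C : ℝ, ∀ x, |ψ x| ≤ C := by
  have hg : Continuous (hper.lift : UnitAddCircle → ℝ) := by
    apply (QuotientAddGroup.isQuotientMap_mk _).continuous_iff.2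
    exact hc
  obtain ⟨C, hC⟩ := (isCompact_univ (X := UnitAddCircle)).exists_bound_of_continuousOn
    hg.continuousOn
  exact ⟨C, fun x => hC (x : UnitAddCircle) (mem_univ _)⟩

end Pool.Agent.Helper49
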