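import Pool.Agent.Helper49.Integrable
import Pool.Agent.Helper49.Lift

set_option autoImplicit false

open Set Filter Topology

namespace Pool.Agent.Helper49

theorem exists_sys (ι : Type) [Finite ι] (f : ι → (UnitAddCircle ≃ₜ UnitAddCircle))
    (hf : ∀ s, ∃ F : ℝ → ℝ, ContDiff ℝ 1 F ∧ (∀ x, deriv F x ≠ 0) ∧
      ∀ x : ℝ, ((F x : ℝ) : UnitAddCircle) = f s (x : UnitAddCircle)) :
    ∃ Y : Sys ι, (∀ s (x : ℝ), ((Y.F s x : ℝ) : UnitAddCircle) = f s (x : UnitAddCircle)) ∧
      (∀ s, ∃ m : ℤ, ∀ x, Y.F s (x + 1) = Y.F s x + m) ∧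
      (∀ s x, Y.φ s (x + 1) = Y.φ s x) := by
  choose F hF hd hlift using hf
  have hdeg : ∀ s, ∃ m : ℤ, ∀ x, F s (x + 1) = F s x + m := fun s =>
    exists_degree (hF s).continuous (f := f s) (hlift s)
  choose m hm using hdeg
  obtain ⟨φ, hφ⟩ : ∃ φ : ι → ℝ → ℝ, φ = fun s x => Real.log |deriv (F s) x| := ⟨_, rfl⟩
  have hcont : ∀ s, Continuous (φ s) := by
    intro s
    rw [hφ]
    apply Continuous.log
    · exact ((hF s).continuous_deriv le_rfl).abs
    · intro x
      exact abs_ne_zero.2 (hd s x)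
  have hexp : ∀ s x, Real.exp (φ s x) = |deriv (F s) x| := fun s x => by
    rw [hφ]
    exact Real.exp_log (abs_pos.2 (hd s x))
  have hper : ∀ s, Function.Periodic (φ s) (1 : ℝ) := by
    intro s x
    have h1 : deriv (fun y => F s (y + 1)) x = deriv (fun y => F s y + m s) x := by
      congr 1
      funext y
      exact hm s y
    rw [deriv_comp_add_const, deriv_add_const] at h1
    rw [hφ]
    simp only [h1]
  have hbd : ∃ Λ : ℝ, ∀ s x, |φ s x| ≤ Λ := by
    have h1 : ∀ s, ∃ C : ℝ, ∀ x, |φ s x| ≤ C := fun s =>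
      bounded_of_periodic (hcont s) (hper s)
    choose C hC using h1
    obtain ⟨B, hB⟩ := (Set.finite_range C).bddAbove
    exact ⟨B, fun s x => (hC s x).trans (hB (mem_range_self s))⟩
  have hmvt : ∀ s u v, ∃ ξ, |F s u - F s v| = Real.exp (φ s ξ) * |u - v| := by
    have main : ∀ s u v, u < v → ∃ ξ, |F s u - F s v| = Real.exp (φ s ξ) * |u - v| := by
      intro s u v huv
      obtain ⟨ξ, -, hξ⟩ := exists_deriv_eq_slope (F s) huv (hF s).continuous.continuousOn
        ((hF s).differentiable (by norm_num)).differentiableOn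
      refine ⟨ξ, ?_⟩
      rw [hexp, ← abs_mul, hξ, abs_sub_comm, ← abs_neg]
      congr 1
      have : v - u ≠ 0 := by linarith
      field_simp
      ring
    intro s u v
    rcases lt_trichotomy u v with h | h | h
    · exact main s u v h
    · subst h
      exact ⟨u, by simp⟩
    · obtain ⟨ξ, hξ⟩ := main s v u h
      exact ⟨ξ, by rw [abs_sub_comm, hξ, abs_sub_comm]⟩
  have huc : ∀ η > 0, ∃ r > 0, ∀ s u v, |F s u - F s v| ≤ r → |φ s u - φ s v| ≤ η := by
    intro η hη
    obtain ⟨Λ, hΛ⟩ := hbd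
    have h1 : ∀ s, ∃ r > 0, ∀ u v, |u - v| < r → |φ s u - φ s v| < η := by
      intro s
      have := Metric.uniformContinuous_iff.1
        (uniformContinuous_of_periodic (hcont s) (hper s)) η hη
      obtain ⟨r, hr, h⟩ := this
      exact ⟨r, hr, fun u v huv => h (by rwa [Real.dist_eq])⟩
    choose r hr hr2 using h1
    have h2 : ∃ r0 > 0, ∀ s, r0 ≤ r s := by
      cases isEmpty_or_nonempty ι with
      | inl h => exact ⟨1, one_pos, fun s => isEmptyElim s⟩
      | inr h =>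
        obtain ⟨s0, hs0⟩ := Finite.exists_min r
        exact ⟨r s0, hr s0, hs0⟩
    obtain ⟨r0, hr0, hr0'⟩ := h2
    refine ⟨r0 * Real.exp (-Λ) / 2, by positivity, fun s u v huv => ?_⟩
    apply le_of_lt
    apply hr2 s
    refine lt_of_lt_of_le ?_ (hr0' s)
    obtain ⟨ξ, hξ⟩ := hmvt s u v
    have h3 : Real.exp (-Λ) * |u - v| ≤ |F s u - F s v| := by
      rw [hξ]
      apply mul_le_mul_of_nonneg_right _ (abs_nonneg _)
      apply Real.exp_le_exp.2
      linarith [(abs_le.1 (hΛ s ξ)).1]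
    have h4 : Real.exp (-Λ) * |u - v| < Real.exp (-Λ) * r0 := by
      have : 0 < r0 * Real.exp (-Λ) := by positivity
      linarith
    exact lt_of_mul_lt_mul_left h4 (Real.exp_pos _).le
  refine ⟨⟨fun s => liftHomeo (F s) (hF s) (hd s) (hm s), φ, hcont, ?_, huc, hbd⟩, hlift,
    fun s => ⟨m s, hm s⟩, fun s x => hper s x⟩
  intro s x
  refine ⟨deriv (F s) x / |deriv (F s) x|, ?_, ?_⟩
  · rw [abs_div, abs_abs, div_self (abs_ne_zero.2 (hd s x))]
  · rw [hexp, div_mul_cancel₀ _ (abs_ne_zero.2 (hd s x))]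
    exact ((hF s).differentiable (by norm_num) x).hasDerivAt

namespace Sys

variable {ι : Type} (S : Sys ι)

theorem L_periodic (hdeg : ∀ s, ∃ m : ℤ, ∀ x, S.F s (x + 1) = S.F s x + m)
    (hφ : ∀ s x, S.φ s (x + 1) = S.φ s x) (w : List ι) :
    ∀ (x : ℝ) (k : ℤ), S.L w (x + k) = S.L w x := by
  induction w with
  | nil => intro x k; rfl
  | cons s w ih =>
    intro x k
    obtain ⟨m, hm⟩ := hdeg s
    have h1 : S.F s (x + k) = S.F s x + ((k * m : ℤ) : ℝ) := by
      rw [degree_int hm]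
      push_cast
      ring
    have h2 : S.φ s (x + k) = S.φ s x := by
      have hper : Function.Periodic (S.φ s) (1 : ℝ) := hφ s
      have := (hper.int_mul k) x
      simpa using this
    rw [L_cons, L_cons, h1, h2, ih]

theorem Phi_periodic (hdeg : ∀ s, ∃ m : ℤ, ∀ x, S.F s (x + 1) = S.F s x + m)
    (hφ : ∀ s x, S.φ s (x + 1) = S.φ s x) (e : ℝ) (x : ℝ) (k : ℤ) :
    S.Phi e (x + k) = S.Phi e x := by
  unfold Phi
  congr 1
  funext w
  rw [S.L_periodic hdeg hφ]

theorem lifts_word {f : ι → (UnitAddCircle ≃ₜ UnitAddCircle)}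
    (hf : ∀ s (x : ℝ), ((S.F s x : ℝ) : UnitAddCircle) = f s (x : UnitAddCircle))
    (w : List ι) : ∃ g ∈ Subgroup.closure (range f),
      ∀ x : ℝ, ((S.W w x : ℝ) : UnitAddCircle) = g (x : UnitAddCircle) := by
  induction w with
  | nil => exact ⟨1, Subgroup.one_mem _, fun x => rfl⟩
  | cons s w ih =>
    obtain ⟨g, hg, hgx⟩ := ih
    refine ⟨g * f s, Subgroup.mul_mem _ hg (Subgroup.subset_closure (mem_range_self s)), ?_⟩
    intro x
    rw [W_cons, hgx, hf]
    rfl

end Sys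

end Pool.Agent.Helper49
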