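import Pool.Agent.Helper49.Build

set_option autoImplicit false

open Set Filter Topology MeasureTheory

namespace Pool.Agent.Helper49

namespace Sys

variable {ι : Type} (S : Sys ι)

theorem exists_conj [Countable ι] (hdeg : ∀ s, ∃ m : ℤ, ∀ x, S.F s (x + 1) = S.F s x + m)
    (hφ : ∀ s x, S.φ s (x + 1) = S.φ s x) {e : ℝ}
    (hfin : ∫⁻ x in Icc (0 : ℝ) 1, S.Phi e x < ⊤) :
    ∃ H : ℝ ≃ₜ ℝ, (∀ x, H (x + 1) = H x + 1) ∧
      ∀ s x y, |H (S.F s x) - H (S.F s y)| ≤ Real.exp (2 * e) * |H x - H y| := by
  have hmeas := S.measurable_Phi e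
  have hper : ∀ (x : ℝ) (k : ℤ), S.Phi e (x + k) = S.Phi e x := S.Phi_periodic hdeg hφ e
  -- local finiteness
  have hunit : ∀ k : ℤ, ∫⁻ x in Icc (k : ℝ) (k + 1), S.Phi e x =
      ∫⁻ x in Icc (0 : ℝ) 1, S.Phi e x := by
    intro k
    have h1 : MeasurePreserving (fun x : ℝ => x + k) volume volume :=
      measurePreserving_add_right volume (k : ℝ)
    have h2 := h1.setLIntegral_comp_preimage (measurableSet_Icc (a := (k : ℝ)) (b := k + 1)) hmeas
    rw [← h2]
    have h3 : (fun x : ℝ => x + k) ⁻¹' Icc (k : ℝ) (k + 1) = Icc 0 1 := by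
      ext x
      simp only [mem_preimage, mem_Icc]
      constructor
      · rintro ⟨h3, h4⟩
        constructor <;> linarith
      · rintro ⟨h3, h4⟩
        constructor <;> linarith
    rw [h3]
    simp only [hper]
  have hfin' : ∀ a b : ℝ, ∫⁻ x in Icc a b, S.Phi e x < ⊤ := by
    intro a b
    have hcov : Icc a b ⊆ ⋃ k ∈ Finset.Icc ⌊a⌋ ⌊b⌋, Icc (k : ℝ) (k + 1) := by
      intro x hx
      simp only [mem_iUnion]
      refine ⟨⌊x⌋, Finset.mem_Icc.2 ⟨Int.floor_le_floor hx.1, Int.floor_le_floor hx.2⟩,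
        Int.floor_le x, (Int.lt_floor_add_one x).le⟩
    calc ∫⁻ x in Icc a b, S.Phi e x
        ≤ ∫⁻ x in ⋃ k ∈ Finset.Icc ⌊a⌋ ⌊b⌋, Icc (k : ℝ) (k + 1), S.Phi e x :=
          lintegral_mono_set hcov
      _ ≤ ∑ k ∈ Finset.Icc ⌊a⌋ ⌊b⌋, ∫⁻ x in Icc (k : ℝ) (k + 1), S.Phi e x := by
          have h1 := measure_biUnion_finset_le (μ := volume.withDensity (S.Phi e))
            (Finset.Icc ⌊a⌋ ⌊b⌋) (fun k : ℤ => Icc (k : ℝ) (k + 1))
          rw [withDensity_apply _ (Finset.measurableSet_biUnion _
            fun _ _ => measurableSet_Icc)] at h1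
          refine h1.trans (le_of_eq ?_)
          apply Finset.sum_congr rfl
          intro k _
          rw [withDensity_apply _ measurableSet_Icc]
      _ < ⊤ := by
          apply ENNReal.sum_lt_top.2
          intro k _
          rw [hunit]
          exact hfin
  obtain ⟨φ, hφdef⟩ : ∃ φ : ℝ → ℝ, φ = fun x => (S.Phi e x).toReal := ⟨_, rfl⟩
  have hφ0 : ∀ x, 0 ≤ φ x := fun x => by rw [hφdef]; exact ENNReal.toReal_nonneg
  have hφm : Measurable φ := by
    rw [hφdef]
    exact hmeas.ennreal_toReal
  have hae : ∀ a b : ℝ, ∀ᵐ x ∂(volume.restrict (Icc a b)), S.Phi e x < ⊤ := fun a b =>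
    ae_lt_top hmeas (hfin' a b).ne
  have hint : ∀ a b : ℝ, IntegrableOn φ (Icc a b) := by
    intro a b
    rw [hφdef]
    exact integrable_toReal_of_lintegral_ne_top hmeas.aemeasurable (hfin' a b).ne
  have hii : ∀ a b : ℝ, IntervalIntegrable φ volume a b := by
    intro a b
    rw [intervalIntegrable_iff]
    exact (hint (min a b) (max a b)).mono_set uIoc_subset_uIcc
  have hval : ∀ a b : ℝ, a ≤ b → ∫ t in a..b, φ t = (∫⁻ x in Icc a b, S.Phi e x).toReal := by
    intro a b hab
    rw [intervalIntegral.integral_of_le hab, ← integral_Icc_eq_integral_Ioc, hφdef]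
    exact integral_toReal hmeas.aemeasurable (hae a b)
  obtain ⟨G, hG⟩ : ∃ G : ℝ → ℝ, G = fun x => ∫ t in (0 : ℝ)..x, φ t := ⟨_, rfl⟩
  have hGsub : ∀ a b, G b - G a = ∫ t in a..b, φ t := by
    intro a b
    rw [hG]
    exact intervalIntegral.integral_interval_sub_left (hii 0 b) (hii 0 a)
  have hGcont : Continuous G := by
    rw [hG]
    exact intervalIntegral.continuous_primitive hii 0
  have hGge : ∀ a b, a ≤ b → b - a ≤ G b - G a := by
    intro a b hab
    rw [hGsub, hval a b hab]
    have h1 : ENNReal.ofReal (b - a) ≤ ∫⁻ x in Icc a b, S.Phi e x := by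
      calc ENNReal.ofReal (b - a) = ∫⁻ _ in Icc a b, (1 : ENNReal) := by simp
        _ ≤ _ := lintegral_mono fun x => S.one_le_Phi e x
    have h2 := ENNReal.toReal_mono (hfin' a b).ne h1
    rwa [ENNReal.toReal_ofReal (by linarith)] at h2
  obtain ⟨c, hc⟩ : ∃ c : ℝ, c = ∫ t in (0 : ℝ)..(0 + 1), φ t := ⟨_, rfl⟩
  have hφper : Function.Periodic φ (1 : ℝ) := by
    intro x
    rw [hφdef]
    have := hper x 1
    push_cast at this
    simp only [this]
  have hG1 : ∀ x, G (x + 1) = G x + c := by
    intro x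
    have h1 := hGsub x (x + 1)
    rw [hφper.intervalIntegral_add_eq x 0, ← hc] at h1
    linarith
  have hc1 : 1 ≤ c := by
    have h1 := hG1 0
    have h2 := hGge 0 (0 + 1) (by norm_num)
    linarith
  have hc0 : 0 < c := by linarith
  have hGmono : StrictMono G := by
    intro a b hab
    have := hGge a b hab.le
    linarith
  have hsurj : Function.Surjective fun x => G x / c := by
    intro y
    have hcont : Continuous fun x => G x / c := hGcont.div_const c
    apply mem_range_of_exists_le_of_exists_ge hcont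
    · refine ⟨-|y * c - G 0|, ?_⟩
      rw [div_le_iff₀ hc0]
      have h1 := hGge (-|y * c - G 0|) 0 (by simp)
      have h2 := neg_abs_le (y * c - G 0)
      linarith
    · refine ⟨|y * c - G 0|, ?_⟩
      rw [le_div_iff₀ hc0]
      have h1 := hGge 0 (|y * c - G 0|) (abs_nonneg _)
      have h2 := le_abs_self (y * c - G 0)
      linarith
  have hmono : StrictMono fun x => G x / c := fun a b hab =>
    div_lt_div_of_pos_right (hGmono hab) hc0
  let H := (hmono.orderIsoOfSurjective _ hsurj).toHomeomorph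
  have hH : ∀ x, H x = G x / c := fun x => rfl
  refine ⟨H, ?_, ?_⟩
  · intro x
    rw [hH, hH, hG1, add_div, div_self hc0.ne']
  · intro s
    -- estimate for ordered pairs
    have main : ∀ x y, x ≤ y →
        |G (S.F s x) - G (S.F s y)| ≤ Real.exp (2 * e) * |G x - G y| := by
      intro x y hxy
      have himg : S.F s '' Icc x y = Icc (min (S.F s x) (S.F s y)) (max (S.F s x) (S.F s y)) := by
        ext z
        have := mem_Icc_symm_iff (S.F s).symm hxy z
        simp only [Homeomorph.symm_symm] at this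
        rw [this]
        constructor
        · rintro ⟨t, ht, rfl⟩
          simpa using ht
        · intro hz
          exact ⟨(S.F s).symm z, hz, by simp⟩
      have h1 : |G (S.F s x) - G (S.F s y)| =
          (∫⁻ t in S.F s '' Icc x y, S.Phi e t).toReal := by
        rw [himg, ← hval _ _ min_le_max, ← hGsub]
        rcases le_total (S.F s x) (S.F s y) with h | h
        · rw [min_eq_left h, max_eq_right h, abs_sub_comm, abs_of_nonneg]
          exact sub_nonneg.2 (hGmono.monotone h)
        · rw [min_eq_right h, max_eq_left h, abs_of_nonneg]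
          exact sub_nonneg.2 (hGmono.monotone h)
      choose σ hσ hd using S.der s
      have h2 : ∫⁻ t in S.F s '' Icc x y, S.Phi e t =
          ∫⁻ t in Icc x y, ENNReal.ofReal |σ t * Real.exp (S.φ s t)| * S.Phi e (S.F s t) :=
        lintegral_image_eq_lintegral_abs_deriv_mul measurableSet_Icc
          (fun t _ => (hd t).hasDerivWithinAt) (S.F s).injective.injOn _
      have h3 : ∫⁻ t in S.F s '' Icc x y, S.Phi e t ≤
          ENNReal.ofReal (Real.exp (2 * e)) * ∫⁻ t in Icc x y, S.Phi e t := by
        rw [h2, ← lintegral_const_mul _ hmeas]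
        apply lintegral_mono
        intro t
        simp only [abs_mul, hσ, one_mul, abs_of_pos (Real.exp_pos _)]
        exact S.Phi_step e s t
      rw [h1]
      have h4 := ENNReal.toReal_mono
        (ENNReal.mul_lt_top ENNReal.ofReal_lt_top (hfin' x y)).ne h3
      rw [ENNReal.toReal_mul, ENNReal.toReal_ofReal (Real.exp_pos _).le, ← hval x y hxy,
        ← hGsub] at h4
      rwa [abs_sub_comm (G x), abs_of_nonneg (sub_nonneg.2 (hGmono.monotone hxy))]
    intro x y
    have h5 : ∀ x y, |G (S.F s x) - G (S.F s y)| ≤ Real.exp (2 * e) * |G x - G y| := by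
      intro x y
      rcases le_total x y with h | h
      · exact main x y h
      · rw [abs_sub_comm, abs_sub_comm (G x)]
        exact main y x h
    rw [hH, hH, hH, hH, ← sub_div, ← sub_div, abs_div, abs_div, ← mul_div_assoc]
    exact div_le_div_of_nonneg_right (h5 x y) (abs_nonneg _)

end Sys

end Pool.Agent.Helper49
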