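import Mathlib

set_option autoImplicit false

open MeasureTheory Set

namespace Pool.Agent.Helper49

/-- Bounded overlap of the big intervals, given disjointness of the small ones. -/
theorem tsum_volume_le {α : Type*} (u : Set α) (hu : u.Countable) (A A' B' B : α → ℝ)
    (h1 : ∀ x ∈ u, A x < A' x) (h2 : ∀ x ∈ u, A' x < B' x) (h3 : ∀ x ∈ u, B' x < B x)
    (hdisj : ∀ x ∈ u, ∀ y ∈ u, x ≠ y → Disjoint (Icc (A' x) (B' x)) (Icc (A' y) (B' y)))
    (hstar : ∀ x ∈ u, ∀ y ∈ u, A x < A' y → B' y < B x →
      (Icc (A' x) (B' x) ∩ Icc (A' y) (B' y)).Nonempty) :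
    ∑' b : u, volume (Icc (A b) (B b)) ≤ 3 * volume (⋃ x ∈ u, Icc (A x) (B x)) := by
  have := hu.to_subtype
  -- pairwise contradiction
  have key : ∀ x ∈ u, ∀ y ∈ u, x ≠ y → A x < A' y → B' y < B x → False := by
    intro x hx y hy hxy hA hB
    have h := hstar x hx y hy hA hB
    exact (Set.disjoint_iff_inter_eq_empty.1 (hdisj x hx y hy hxy) ▸ h).ne_empty rfl
  have hsep : ∀ x ∈ u, ∀ y ∈ u, x ≠ y → B' x < A' y ∨ B' y < A' x := by
    intro x hx y hy hxy
    by_contra hcon
    push Not at hcon
    have hd := hdisj x hx y hy hxy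
    rw [Set.disjoint_left] at hd
    rcases le_total (A' x) (A' y) with h | h
    · exact hd (a := A' y) ⟨h, hcon.1⟩ ⟨le_rfl, (h2 y hy).le⟩
    · exact hd (a := A' x) ⟨le_rfl, (h2 x hx).le⟩ ⟨h, hcon.2⟩
  calc ∑' b : u, volume (Icc (A b) (B b))
      = ∑' b : u, ∫⁻ t, (Icc (A b) (B b)).indicator 1 t := by
        apply tsum_congr
        intro b
        rw [lintegral_indicator_one measurableSet_Icc]
    _ = ∫⁻ t, ∑' b : u, (Icc (A b) (B b)).indicator 1 t := by
        rw [lintegral_tsum]
        intro b
        exact (measurable_one.indicator measurableSet_Icc).aemeasurable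
    _ ≤ ∫⁻ t, 3 * (⋃ x ∈ u, Icc (A x) (B x)).indicator 1 t := by
        apply lintegral_mono
        intro t
        by_cases ht : t ∈ ⋃ x ∈ u, Icc (A x) (B x)
        · show ∑' b : u, (Icc (A b) (B b)).indicator 1 t ≤
            3 * (⋃ x ∈ u, Icc (A x) (B x)).indicator 1 t
          rw [indicator_of_mem ht, Pi.one_apply, mul_one, ENNReal.tsum_eq_iSup_sum]
          apply iSup_le
          intro s
          classical
          have hs : ∑ b ∈ s, (Icc (A b) (B b)).indicator (1 : ℝ → ENNReal) t =
              ((s.filter fun b : u => t ∈ Icc (A b) (B b)).card : ENNReal) := by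
            rw [Finset.card_filter, Nat.cast_sum]
            apply Finset.sum_congr rfl
            intro b _
            by_cases hb : t ∈ Icc (A b) (B b)
            · rw [indicator_of_mem hb, if_pos hb]; simp
            · rw [indicator_of_notMem hb, if_neg hb]; simp
          rw [hs]
          have hcard : (s.filter fun b : u => t ∈ Icc (A b) (B b)).card ≤ 3 := by
            let p : u → Fin 3 := fun b => if t < A' b then 2 else if B' b < t then 0 else 1
            have hinj : Set.InjOn p (s.filter fun b : u => t ∈ Icc (A b) (B b)) := by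
              intro b hb c hc hbc
              simp only [Finset.coe_filter, mem_ofPred_eq] at hb hc
              by_contra hne
              have hne' : (b : α) ≠ c := fun h => hne (Subtype.ext h)
              have hb1 := h1 b b.2
              have hb2 := h2 b b.2
              have hb3 := h3 b b.2
              have hc1 := h1 c c.2
              have hc2 := h2 c c.2
              have hc3 := h3 c c.2
              obtain ⟨-, hbA, hbB⟩ := hb
              obtain ⟨-, hcA, hcB⟩ := hc
              have hs' := hsep b b.2 c c.2 hne'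
              by_cases p1 : t < A' b
              · by_cases q1 : t < A' c
                · rcases hs' with h | h
                  · exact key c c.2 b b.2 (Ne.symm hne') (lt_of_le_of_lt hcA p1) (by linarith)
                  · exact key b b.2 c c.2 hne' (lt_of_le_of_lt hbA q1) (by linarith)
                · exfalso
                  simp only [p, p1, q1, if_true, if_false] at hbc
                  by_cases q2 : B' c < t
                  · simp [q2] at hbc
                  · simp [q2] at hbc
              · by_cases q1 : t < A' c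
                · exfalso
                  simp only [p, p1, q1, if_true, if_false] at hbc
                  by_cases q2 : B' b < t
                  · simp [q2] at hbc
                  · simp [q2] at hbc
                · by_cases p2 : B' b < t
                  · by_cases q2 : B' c < t
                    · rcases hs' with h | h
                      · exact key b b.2 c c.2 hne' (by linarith) (by linarith)
                      · exact key c c.2 b b.2 (Ne.symm hne') (by linarith) (by linarith)
                    · exfalso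
                      simp [p, p1, q1, p2, q2] at hbc
                  · by_cases q2 : B' c < t
                    · exfalso
                      simp [p, p1, q1, p2, q2] at hbc
                    · rcases hs' with h | h
                      · push Not at p1 q1 p2 q2
                        linarith
                      · push Not at p1 q1 p2 q2
                        linarith
            have := Finset.card_le_card_of_injOn p (t := Finset.univ)
              (fun _ _ => Finset.mem_coe.2 (Finset.mem_univ _)) hinj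
            simpa using this
          exact_mod_cast hcard
        · have h0 : ∀ b : u, (Icc (A b) (B b)).indicator (1 : ℝ → ENNReal) t = 0 := by
            intro b
            apply indicator_of_notMem
            intro hb
            exact ht (mem_biUnion b.2 hb)
          simp only [h0, tsum_zero]
          exact bot_le
    _ = 3 * volume (⋃ x ∈ u, Icc (A x) (B x)) := by
        rw [lintegral_const_mul' _ _ (by norm_num), lintegral_indicator_one]
        exact MeasurableSet.biUnion hu fun _ _ => measurableSet_Icc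

/-- The covering lemma: small intervals inside big ones have small union. -/
theorem covering {α : Type*} (X : Set α) (A A' B' B : α → ℝ) (κ R : ℝ) (hκ : 0 ≤ κ)
    (h1 : ∀ x ∈ X, A x < A' x) (h2 : ∀ x ∈ X, A' x < B' x) (h3 : ∀ x ∈ X, B' x < B x)
    (hlen : ∀ x ∈ X, B' x - A' x ≤ κ * (B x - A x)) (hR : ∀ x ∈ X, B x - A x ≤ R)
    (hstar : ∀ x ∈ X, ∀ y ∈ X, A x < A' y → B' y < B x →
      (Icc (A' x) (B' x) ∩ Icc (A' y) (B' y)).Nonempty) :
    volume (⋃ x ∈ X, Icc (A' x) (B' x)) ≤
      ENNReal.ofReal (15 * κ) * volume (⋃ x ∈ X, Icc (A x) (B x)) := by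
  have hball : ∀ x, Metric.closedBall ((A' x + B' x) / 2) ((B' x - A' x) / 2) =
      Icc (A' x) (B' x) := by
    intro x
    rw [Real.closedBall_eq_Icc]
    congr 1 <;> ring
  obtain ⟨u, huX, hdisj, hcov⟩ := Vitali.exists_disjoint_subfamily_covering_enlargement_closedBall
    X (fun x => (A' x + B' x) / 2) (fun x => (B' x - A' x) / 2) R
    (fun x hx => by
      have := h1 x hx
      have := h2 x hx
      have := h3 x hx
      have := hR x hx
      linarith) 5 (by norm_num)
  have hdisj' : ∀ x ∈ u, ∀ y ∈ u, x ≠ y → Disjoint (Icc (A' x) (B' x)) (Icc (A' y) (B' y)) := by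
    intro x hx y hy hxy
    have := hdisj hx hy hxy
    simp only [Function.onFun, hball] at this
    exact this
  have hcount : u.Countable := by
    apply hdisj.countable_of_nonempty_interior
    intro x hx
    rw [hball, interior_Icc]
    exact nonempty_Ioo.2 (h2 x (huX hx))
  have := hcount.to_subtype
  calc volume (⋃ x ∈ X, Icc (A' x) (B' x))
      ≤ volume (⋃ b ∈ u, Metric.closedBall ((A' b + B' b) / 2) (5 * ((B' b - A' b) / 2))) := by
        apply measure_mono
        apply iUnion₂_subset
        intro x hx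
        obtain ⟨b, hb, hsub⟩ := hcov x hx
        rw [hball] at hsub
        exact hsub.trans (subset_biUnion_of_mem
          (u := fun b => Metric.closedBall ((A' b + B' b) / 2) (5 * ((B' b - A' b) / 2))) hb)
    _ ≤ ∑' b : u, volume (Metric.closedBall ((A' b + B' b) / 2) (5 * ((B' b - A' b) / 2))) :=
        measure_biUnion_le _ hcount _
    _ ≤ ∑' b : u, ENNReal.ofReal (5 * κ) * volume (Icc (A b) (B b)) := by
        apply ENNReal.tsum_le_tsum
        intro b
        rw [Real.volume_closedBall, Real.volume_Icc, ← ENNReal.ofReal_mul (by positivity)]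
        apply ENNReal.ofReal_le_ofReal
        have := hlen b (huX b.2)
        linarith
    _ = ENNReal.ofReal (5 * κ) * ∑' b : u, volume (Icc (A b) (B b)) := by
        rw [ENNReal.tsum_mul_left]
    _ ≤ ENNReal.ofReal (5 * κ) * (3 * volume (⋃ x ∈ u, Icc (A x) (B x))) := by
        gcongr
        exact tsum_volume_le u hcount A A' B' B (fun x hx => h1 x (huX hx))
          (fun x hx => h2 x (huX hx)) (fun x hx => h3 x (huX hx)) hdisj'
          (fun x hx y hy => hstar x (huX hx) y (huX hy))
    _ ≤ ENNReal.ofReal (5 * κ) * (3 * volume (⋃ x ∈ X, Icc (A x) (B x))) :=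
        mul_le_mul' le_rfl (mul_le_mul' le_rfl (measure_mono (biUnion_subset_biUnion_left huX)))
    _ = ENNReal.ofReal (15 * κ) * volume (⋃ x ∈ X, Icc (A x) (B x)) := by
        rw [← mul_assoc]
        congr 1
        have : (3 : ENNReal) = ENNReal.ofReal 3 := by simp
        rw [this, ← ENNReal.ofReal_mul (by positivity)]
        congr 1
        ring

/-- The chain lemma: iterating the covering lemma over finitely many symbols. -/
theorem chain {α σ : Type*} [DecidableEq σ] (M : ℕ) (Q : α → ℕ → σ) (A B : α → ℕ → ℝ)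
    (θ K R N : ℝ) (hθ : 0 ≤ θ) (hK : 1 ≤ K) (hN : 1 ≤ N) (X0 : Set α)
    (hAB : ∀ x ∈ X0, ∀ j ≤ M, A x j < B x j)
    (hnest : ∀ x ∈ X0, ∀ j j', j < j' → j' ≤ M → A x j < A x j' ∧ B x j' < B x j)
    (hratio : ∀ x ∈ X0, ∀ j j' : ℕ, j < j' → j' ≤ M → Q x j = Q x j' →
      B x j' - A x j' ≤ K * Real.exp (-θ * ((j' : ℝ) - j)) * (B x j - A x j))
    (hR : ∀ x ∈ X0, ∀ j ≤ M, B x j - A x j ≤ R)
    (hstar : ∀ x ∈ X0, ∀ y ∈ X0, ∀ j j' b, j < j' → j' ≤ M → b ≤ M → Q x j = Q x j' →
      Q x j = Q y b → A x j < A y b → B y b < B x j →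
      (Icc (A x j') (B x j') ∩ Icc (A y b) (B y b)).Nonempty)
    (T : Finset σ) (hT : (T.card : ℝ) ≤ N) :
    ∀ a ≤ M, ∀ X ⊆ X0, (∀ x ∈ X, ∀ j, a ≤ j → j ≤ M → Q x j ∈ T) →
      volume (⋃ x ∈ X, Icc (A x M) (B x M)) ≤
        ENNReal.ofReal ((15 * K * Real.exp θ * (M + 1) * N) ^ T.card *
          Real.exp (-θ * ((M : ℝ) - a))) * volume (⋃ x ∈ X, Icc (A x a) (B x a)) := by
  induction T using Finset.strongInduction with
  | H T ih =>
  intro a ha X hX hQ
  have hMa : (a : ℝ) ≤ M := by exact_mod_cast ha
  have hE : 1 ≤ Real.exp θ := Real.one_le_exp hθ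
  have hB1 : 1 ≤ 15 * K * Real.exp θ * (M + 1) * N := by
    have h1 : (1 : ℝ) ≤ (M : ℝ) + 1 := by
      have : (0 : ℝ) ≤ M := Nat.cast_nonneg M
      linarith
    have h2 : (1 : ℝ) ≤ 15 * K := by linarith
    have h3 : (1 : ℝ) ≤ 15 * K * Real.exp θ := one_le_mul_of_one_le_of_one_le h2 hE
    have h4 : (1 : ℝ) ≤ 15 * K * Real.exp θ * (M + 1) := one_le_mul_of_one_le_of_one_le h3 h1
    exact one_le_mul_of_one_le_of_one_le h4 hN
  obtain ⟨Bc, hBc⟩ : ∃ Bc : ℝ, Bc = 15 * K * Real.exp θ * (M + 1) * N := ⟨_, rfl⟩
  rw [← hBc] at hB1 ih ⊢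
  -- one step
  have step1 : ∀ (l : ℕ) (Y : Set α), a ≤ l → l ≤ M → Y ⊆ X0 → (∀ x ∈ Y, Q x a = Q x l) →
      (∀ x ∈ Y, ∀ y ∈ Y, Q x a = Q y l) →
      volume (⋃ x ∈ Y, Icc (A x l) (B x l)) ≤
        ENNReal.ofReal (15 * K * Real.exp (-θ * ((l : ℝ) - a))) *
          volume (⋃ x ∈ Y, Icc (A x a) (B x a)) := by
    intro l Y hal hlM hY hQ1 hQ2
    rcases hal.eq_or_lt with h | h
    · subst h
      rw [sub_self, mul_zero, Real.exp_zero, mul_one]
      have : (1 : ENNReal) ≤ ENNReal.ofReal (15 * K) := by
        rw [ENNReal.one_le_ofReal]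
        linarith
      calc volume (⋃ x ∈ Y, Icc (A x a) (B x a))
          = 1 * volume (⋃ x ∈ Y, Icc (A x a) (B x a)) := (one_mul _).symm
        _ ≤ _ := mul_le_mul' this le_rfl
    · have := covering Y (fun x => A x a) (fun x => A x l) (fun x => B x l) (fun x => B x a)
        (K * Real.exp (-θ * ((l : ℝ) - a))) R (by positivity)
        (fun x hx => (hnest x (hY hx) a l h hlM).1) (fun x hx => hAB x (hY hx) l hlM)
        (fun x hx => (hnest x (hY hx) a l h hlM).2)
        (fun x hx => hratio x (hY hx) a l h hlM (hQ1 x hx))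
        (fun x hx => hR x (hY hx) a ha)
        (fun x hx y hy hxy hyx => hstar x (hY hx) y (hY hy) a l l h hlM hlM (hQ1 x hx)
          (hQ2 x hx y hy) hxy hyx)
      rw [← mul_assoc] at this
      exact this
  -- the classes
  let P : σ → ℕ → Set α := fun q l =>
    {x ∈ X | Q x a = q ∧ Q x l = q ∧ ∀ j, l < j → j ≤ M → Q x j ≠ q}
  have hPX : ∀ q l, P q l ⊆ X := fun q l x hx => hx.1
  have hcover : (⋃ x ∈ X, Icc (A x M) (B x M)) ⊆
      ⋃ q ∈ T, ⋃ l ∈ Finset.Icc a M, ⋃ x ∈ P q l, Icc (A x M) (B x M) := by
    apply iUnion₂_subset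
    intro x hx
    classical
    let s : Finset ℕ := (Finset.Icc a M).filter fun j => Q x j = Q x a
    have hs : s.Nonempty := ⟨a, by simp [s, ha]⟩
    obtain ⟨l, hl, hmax⟩ : ∃ l ∈ s, ∀ j ∈ s, j ≤ l := ⟨s.max' hs, s.max'_mem hs,
      fun j hj => s.le_max' j hj⟩
    simp only [s, Finset.mem_filter, Finset.mem_Icc] at hl hmax
    have hxP : x ∈ P (Q x a) l := by
      refine ⟨hx, rfl, hl.2, fun j hj hjM hQj => ?_⟩
      have := hmax j ⟨⟨by omega, hjM⟩, hQj⟩
      omega
    intro t ht
    simp only [mem_iUnion]
    exact ⟨Q x a, hQ x hx a le_rfl ha, l, Finset.mem_Icc.2 hl.1, x, hxP, ht⟩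
  have hterm : ∀ q ∈ T, ∀ l ∈ Finset.Icc a M,
      volume (⋃ x ∈ P q l, Icc (A x M) (B x M)) ≤
        ENNReal.ofReal (Bc ^ (T.card - 1) * (15 * K * Real.exp θ) *
          Real.exp (-θ * ((M : ℝ) - a))) * volume (⋃ x ∈ X, Icc (A x a) (B x a)) := by
    intro q hq l hl
    rw [Finset.mem_Icc] at hl
    have hPX0 : P q l ⊆ X0 := (hPX q l).trans hX
    have s1 := step1 l (P q l) hl.1 hl.2 hPX0 (fun x hx => by rw [hx.2.1, hx.2.2.1])
      (fun x hx y hy => by rw [hx.2.1, hy.2.2.1])
    have hmonoa : volume (⋃ x ∈ P q l, Icc (A x a) (B x a)) ≤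
        volume (⋃ x ∈ X, Icc (A x a) (B x a)) :=
      measure_mono (biUnion_subset_biUnion_left (hPX q l))
    have hpow : 1 ≤ Bc ^ (T.card - 1) := one_le_pow₀ hB1
    rcases hl.2.eq_or_lt with h | h
    · subst h
      refine s1.trans (mul_le_mul' (ENNReal.ofReal_le_ofReal ?_) hmonoa)
      apply mul_le_mul_of_nonneg_right _ (Real.exp_pos _).le
      calc 15 * K = 1 * (15 * K * 1) := by ring
        _ ≤ Bc ^ (T.card - 1) * (15 * K * Real.exp θ) := by
          apply mul_le_mul hpow _ (by positivity) (by positivity)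
          exact mul_le_mul_of_nonneg_left hE (by positivity)
    · have herase : T.erase q ⊂ T := Finset.erase_ssubset hq
      have s2 := ih (T.erase q) herase
        (le_trans (by exact_mod_cast Finset.card_le_card herase.1) hT) (l + 1) h (P q l) hPX0
        (fun x hx j hj hjM => Finset.mem_erase.2
          ⟨hx.2.2.2 j hj hjM, hQ x hx.1 j (by omega) hjM⟩)
      have hnest1 : volume (⋃ x ∈ P q l, Icc (A x (l + 1)) (B x (l + 1))) ≤
          volume (⋃ x ∈ P q l, Icc (A x l) (B x l)) := by
        apply measure_mono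
        apply iUnion₂_mono
        intro x hx
        have := hnest x (hPX0 hx) l (l + 1) (Nat.lt_succ_self l) h
        exact Icc_subset_Icc this.1.le this.2.le
      calc volume (⋃ x ∈ P q l, Icc (A x M) (B x M))
          ≤ ENNReal.ofReal (Bc ^ (T.erase q).card *
              Real.exp (-θ * ((M : ℝ) - ((l + 1 : ℕ) : ℝ)))) *
              (ENNReal.ofReal (15 * K * Real.exp (-θ * ((l : ℝ) - a))) *
              volume (⋃ x ∈ X, Icc (A x a) (B x a))) :=
            s2.trans (mul_le_mul' le_rfl (hnest1.trans (s1.trans (mul_le_mul' le_rfl hmonoa))))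
        _ = ENNReal.ofReal (Bc ^ (T.card - 1) * (15 * K * Real.exp θ) *
              Real.exp (-θ * ((M : ℝ) - a))) * volume (⋃ x ∈ X, Icc (A x a) (B x a)) := by
            rw [← mul_assoc, ← ENNReal.ofReal_mul (by positivity), Finset.card_erase_of_mem hq]
            congr 2
            have hexp : Real.exp (-θ * ((M : ℝ) - ((l + 1 : ℕ) : ℝ))) *
                Real.exp (-θ * ((l : ℝ) - a)) = Real.exp θ * Real.exp (-θ * ((M : ℝ) - a)) := by
              rw [← Real.exp_add, ← Real.exp_add]
              congr 1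
              push_cast
              ring
            calc Bc ^ (T.card - 1) * Real.exp (-θ * ((M : ℝ) - ((l + 1 : ℕ) : ℝ))) *
                  (15 * K * Real.exp (-θ * ((l : ℝ) - a)))
                = Bc ^ (T.card - 1) * (15 * K) *
                  (Real.exp (-θ * ((M : ℝ) - ((l + 1 : ℕ) : ℝ))) *
                    Real.exp (-θ * ((l : ℝ) - a))) := by ring
              _ = _ := by rw [hexp]; ring
  rcases T.eq_empty_or_nonempty with hTe | hTne
  · -- no symbols: the family is empty
    have hXe : X = ∅ := by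
      rw [eq_empty_iff_forall_notMem]
      intro x hx
      have := hQ x hx a le_rfl ha
      rw [hTe] at this
      exact absurd this (Finset.notMem_empty _)
    rw [hXe]
    simp
  · calc volume (⋃ x ∈ X, Icc (A x M) (B x M))
        ≤ volume (⋃ q ∈ T, ⋃ l ∈ Finset.Icc a M, ⋃ x ∈ P q l, Icc (A x M) (B x M)) :=
          measure_mono hcover
      _ ≤ ∑ q ∈ T, volume (⋃ l ∈ Finset.Icc a M, ⋃ x ∈ P q l, Icc (A x M) (B x M)) :=
          measure_biUnion_finset_le _ _
      _ ≤ ∑ q ∈ T, ∑ l ∈ Finset.Icc a M, volume (⋃ x ∈ P q l, Icc (A x M) (B x M)) :=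
          Finset.sum_le_sum fun q _ => measure_biUnion_finset_le _ _
      _ ≤ ∑ q ∈ T, ∑ l ∈ Finset.Icc a M,
            ENNReal.ofReal (Bc ^ (T.card - 1) * (15 * K * Real.exp θ) *
            Real.exp (-θ * ((M : ℝ) - a))) * volume (⋃ x ∈ X, Icc (A x a) (B x a)) :=
          Finset.sum_le_sum fun q hq => Finset.sum_le_sum fun l hl => hterm q hq l hl
      _ = ENNReal.ofReal ((T.card : ℝ) * ((Finset.Icc a M).card : ℝ)) *
            (ENNReal.ofReal (Bc ^ (T.card - 1) * (15 * K * Real.exp θ) *
            Real.exp (-θ * ((M : ℝ) - a))) * volume (⋃ x ∈ X, Icc (A x a) (B x a))) := by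
          rw [Finset.sum_const, Finset.sum_const, nsmul_eq_mul, nsmul_eq_mul, ← mul_assoc]
          congr 1
          rw [ENNReal.ofReal_mul (by positivity), ENNReal.ofReal_natCast, ENNReal.ofReal_natCast]
      _ ≤ ENNReal.ofReal (N * (M + 1)) *
            (ENNReal.ofReal (Bc ^ (T.card - 1) * (15 * K * Real.exp θ) *
            Real.exp (-θ * ((M : ℝ) - a))) * volume (⋃ x ∈ X, Icc (A x a) (B x a))) := by
          apply mul_le_mul' _ le_rfl
          apply ENNReal.ofReal_le_ofReal
          apply mul_le_mul hT _ (by positivity) (by linarith)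
          rw [Nat.card_Icc]
          have : M + 1 - a ≤ M + 1 := Nat.sub_le _ _
          exact_mod_cast this
      _ = ENNReal.ofReal (Bc ^ T.card * Real.exp (-θ * ((M : ℝ) - a))) *
            volume (⋃ x ∈ X, Icc (A x a) (B x a)) := by
          rw [← mul_assoc, ← ENNReal.ofReal_mul (by positivity)]
          congr 2
          have hc : T.card = (T.card - 1) + 1 := by
            have := hTne.card_pos
            omega
          conv_rhs => rw [hc, pow_succ]
          rw [hBc]
          ring

end Pool.Agent.Helper49
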