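import Pool.Agent.Helper49.Key

set_option autoImplicit false

open MeasureTheory Set

namespace Pool.Agent.Helper49

namespace Sys

variable {ι : Type} (S : Sys ι)

/-- The density: supremum over all words of the damped derivatives. -/
noncomputable def Phi (e : ℝ) (x : ℝ) : ENNReal :=
  ⨆ w : List ι, ENNReal.ofReal (Real.exp (S.L w x - 2 * e * w.length))

theorem measurable_Phi [Countable ι] (e : ℝ) : Measurable (S.Phi e) := by
  apply Measurable.iSup
  intro w
  apply ENNReal.measurable_ofReal.comp
  apply Continuous.measurable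
  exact Real.continuous_exp.comp ((S.continuous_L w).sub continuous_const)

theorem one_le_Phi (e x : ℝ) : 1 ≤ S.Phi e x := by
  refine le_trans ?_ (le_iSup _ [])
  simp

theorem Phi_step (e : ℝ) (s : ι) (x : ℝ) :
    ENNReal.ofReal (Real.exp (S.φ s x)) * S.Phi e (S.F s x) ≤
      ENNReal.ofReal (Real.exp (2 * e)) * S.Phi e x := by
  unfold Phi
  rw [ENNReal.mul_iSup]
  apply iSup_le
  intro w
  calc ENNReal.ofReal (Real.exp (S.φ s x)) *
        ENNReal.ofReal (Real.exp (S.L w (S.F s x) - 2 * e * w.length))
      = ENNReal.ofReal (Real.exp (2 * e)) *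
        ENNReal.ofReal (Real.exp (S.L (s :: w) x - 2 * e * (s :: w).length)) := by
        rw [← ENNReal.ofReal_mul (Real.exp_pos _).le, ← ENNReal.ofReal_mul (Real.exp_pos _).le,
          ← Real.exp_add, ← Real.exp_add, L_cons, List.length_cons]
        congr 2
        push_cast
        ring
    _ ≤ _ := by
        apply mul_le_mul' le_rfl
        exact le_iSup (fun w : List ι =>
          ENNReal.ofReal (Real.exp (S.L w x - 2 * e * w.length))) (s :: w)

theorem lintegral_Phi_lt_top [Countable ι] (hNR : S.NR) {e : ℝ} (he : 0 < e) :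
    ∫⁻ x in Icc (0 : ℝ) 1, S.Phi e x < ⊤ := by
  obtain ⟨h, C, γ, q, hh, hC, hγ, hkey⟩ := S.key hNR he
  let E : ℕ → ℕ → Set ℝ := fun n M =>
    {x | ∃ w : List ι, w.length = n ∧ M * h ≤ S.L w x - e * n}
  have hE : ∀ n M, MeasurableSet (E n M) := by
    intro n M
    have : E n M = ⋃ w : List ι, {x | w.length = n ∧ M * h ≤ S.L w x - e * n} := by
      ext x
      simp [E]
    rw [this]
    apply MeasurableSet.iUnion
    intro w
    by_cases hw : w.length = n
    · simp only [hw, true_and]
      exact (isClosed_le continuous_const ((S.continuous_L w).sub continuous_const)).measurableSet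
    · simp [hw]
  have hbound : ∀ x, S.Phi e x ≤ 1 + ∑' n : ℕ, ∑' M : ℕ,
      ENNReal.ofReal (Real.exp ((M + 1) * h - e * n)) * (E n M).indicator 1 x := by
    intro x
    apply iSup_le
    intro w
    rcases lt_or_ge (S.L w x - e * w.length) 0 with hneg | hpos
    · refine le_trans ?_ le_self_add
      rw [ENNReal.ofReal_le_one, Real.exp_le_one_iff]
      have : 0 ≤ e * (w.length : ℝ) := by positivity
      linarith
    · refine le_trans ?_ le_add_self
      obtain ⟨M, hM⟩ : ∃ M : ℕ, M = ⌊(S.L w x - e * w.length) / h⌋₊ := ⟨_, rfl⟩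
      have h1 : (M : ℝ) * h ≤ S.L w x - e * w.length := by
        have := Nat.floor_le (div_nonneg hpos hh.le)
        rw [← hM, le_div_iff₀ hh] at this
        exact this
      have h2 : S.L w x - e * w.length < (M + 1) * h := by
        have := Nat.lt_floor_add_one ((S.L w x - e * w.length) / h)
        rw [← hM, div_lt_iff₀ hh] at this
        exact this
      have hx : x ∈ E w.length M := ⟨w, rfl, h1⟩
      refine le_trans ?_ (ENNReal.le_tsum w.length)
      refine le_trans ?_ (ENNReal.le_tsum M)
      rw [indicator_of_mem hx, Pi.one_apply, mul_one]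
      apply ENNReal.ofReal_le_ofReal
      apply Real.exp_le_exp.2
      linarith
  have hsumA : Summable fun n : ℕ => Real.exp (-(e / 2) * n) := by
    have h1 : ∀ n : ℕ, Real.exp (-(e / 2) * n) = Real.exp (-(e / 2)) ^ n := by
      intro n
      rw [← Real.exp_nat_mul]
      congr 1
      ring
    simp only [h1]
    apply summable_geometric_of_lt_one (Real.exp_pos _).le
    rw [Real.exp_lt_one_iff]
    linarith
  have hsumB : Summable fun M : ℕ =>
      C * Real.exp h * (((M : ℝ) + 1) ^ q * Real.exp (-(γ * h) * M)) := by
    apply Summable.mul_left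
    have h1 : ‖Real.exp (-(γ * h))‖ < 1 := by
      rw [Real.norm_eq_abs, abs_of_pos (Real.exp_pos _), Real.exp_lt_one_iff]
      have : 0 < γ * h := by positivity
      linarith
    have h2 := summable_pow_mul_geometric_of_norm_lt_one q h1
    have h3 := (summable_nat_add_iff 1).2 h2
    have h4 := h3.mul_left (Real.exp (γ * h))
    refine h4.congr fun M => ?_
    have h5 : Real.exp (-(γ * h) * M) = Real.exp (-(γ * h)) ^ M := by
      rw [← Real.exp_nat_mul]
      congr 1
      ring
    rw [h5, pow_succ]
    have h6 : Real.exp (γ * h) * Real.exp (-(γ * h)) = 1 := by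
      rw [← Real.exp_add]
      simp
    push_cast
    calc Real.exp (γ * h) * (((M : ℝ) + 1) ^ q *
          (Real.exp (-(γ * h)) ^ M * Real.exp (-(γ * h))))
        = (Real.exp (γ * h) * Real.exp (-(γ * h))) *
          (((M : ℝ) + 1) ^ q * Real.exp (-(γ * h)) ^ M) := by ring
      _ = _ := by rw [h6, one_mul]
  calc ∫⁻ x in Icc (0 : ℝ) 1, S.Phi e x
      ≤ ∫⁻ x in Icc (0 : ℝ) 1, (1 + ∑' n : ℕ, ∑' M : ℕ,
          ENNReal.ofReal (Real.exp ((M + 1) * h - e * n)) * (E n M).indicator 1 x) :=
        lintegral_mono hbound
    _ = (∫⁻ _ in Icc (0 : ℝ) 1, (1 : ENNReal)) + ∫⁻ x in Icc (0 : ℝ) 1, (∑' n : ℕ, ∑' M : ℕ,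
          ENNReal.ofReal (Real.exp ((M + 1) * h - e * n)) * (E n M).indicator 1 x) :=
        lintegral_add_left measurable_const _
    _ = 1 + ∑' n : ℕ, ∑' M : ℕ, ENNReal.ofReal (Real.exp ((M + 1) * h - e * n)) *
          volume {x ∈ Icc (0 : ℝ) 1 | ∃ w : List ι, w.length = n ∧
            M * h ≤ S.L w x - e * n} := by
        congr 1
        · simp
        · rw [lintegral_tsum]
          · apply tsum_congr
            intro n
            rw [lintegral_tsum]
            · apply tsum_congr
              intro M
              rw [lintegral_const_mul _ (measurable_one.indicator (hE n M)),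
                lintegral_indicator_one (hE n M), Measure.restrict_apply (hE n M), inter_comm]
              rfl
            · intro M
              exact ((measurable_one.indicator (hE n M)).const_mul _).aemeasurable
          · intro n
            apply Measurable.aemeasurable
            apply Measurable.tsum
            intro M
            exact (measurable_one.indicator (hE n M)).const_mul _
    _ ≤ 1 + ∑' n : ℕ, ∑' M : ℕ, ENNReal.ofReal (Real.exp (-(e / 2) * n)) *
          ENNReal.ofReal (C * Real.exp h * (((M : ℝ) + 1) ^ q * Real.exp (-(γ * h) * M))) := by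
        apply add_le_add le_rfl
        apply ENNReal.tsum_le_tsum
        intro n
        apply ENNReal.tsum_le_tsum
        intro M
        refine (mul_le_mul' le_rfl (hkey n M)).trans ?_
        rw [← ENNReal.ofReal_mul (Real.exp_pos _).le, ← ENNReal.ofReal_mul (Real.exp_pos _).le]
        apply ENNReal.ofReal_le_ofReal
        apply le_of_eq
        have h1 : Real.exp (((M : ℝ) + 1) * h - e * n) * Real.exp (e / 2 * n) *
            Real.exp (-(1 + γ) * h * M) = Real.exp (-(e / 2) * n) * Real.exp h *
            Real.exp (-(γ * h) * M) := by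
          rw [← Real.exp_add, ← Real.exp_add, ← Real.exp_add, ← Real.exp_add]
          congr 1
          ring
        calc Real.exp (((M : ℝ) + 1) * h - e * n) * (C * ((M : ℝ) + 1) ^ q *
              Real.exp (e / 2 * n) * Real.exp (-(1 + γ) * h * M))
            = C * ((M : ℝ) + 1) ^ q * (Real.exp (((M : ℝ) + 1) * h - e * n) *
              Real.exp (e / 2 * n) * Real.exp (-(1 + γ) * h * M)) := by ring
          _ = _ := by rw [h1]; ring
    _ = 1 + (∑' n : ℕ, ENNReal.ofReal (Real.exp (-(e / 2) * n))) *
          ∑' M : ℕ, ENNReal.ofReal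
            (C * Real.exp h * (((M : ℝ) + 1) ^ q * Real.exp (-(γ * h) * M))) := by
        congr 1
        rw [← ENNReal.tsum_mul_right]
        apply tsum_congr
        intro n
        rw [ENNReal.tsum_mul_left]
    _ < ⊤ := by
        rw [← ENNReal.ofReal_tsum_of_nonneg (fun n => (Real.exp_pos _).le) hsumA,
          ← ENNReal.ofReal_tsum_of_nonneg (fun M => by positivity) hsumB]
        exact ENNReal.add_lt_top.2 ⟨ENNReal.one_lt_top,
          ENNReal.mul_lt_top ENNReal.ofReal_lt_top ENNReal.ofReal_lt_top⟩

end Sys

end Pool.Agent.Helper49
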