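import Mathlib

set_option autoImplicit false

open Set

namespace Pool.Agent.Helper49

/-- A finite system of `C^1` diffeomorphisms of the line with uniform control. -/
structure Sys (ι : Type) where
  F : ι → (ℝ ≃ₜ ℝ)
  φ : ι → ℝ → ℝ
  cont : ∀ s, Continuous (φ s)
  der : ∀ s x, ∃ σ : ℝ, |σ| = 1 ∧ HasDerivAt (F s) (σ * Real.exp (φ s x)) x
  uc : ∀ η > 0, ∃ r > 0, ∀ s u v, |F s u - F s v| ≤ r → |φ s u - φ s v| ≤ η
  bd : ∃ Λ : ℝ, ∀ s x, |φ s x| ≤ Λ

namespace Sys

variable {ι : Type} (S : Sys ι)

/-- Composition along a word; the first letter acts first. -/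
def W : List ι → (ℝ ≃ₜ ℝ)
  | [] => Homeomorph.refl ℝ
  | s :: w => (S.F s).trans (W w)

/-- The logarithm of the absolute value of the derivative of `W w` at `x`. -/
def L : List ι → ℝ → ℝ
  | [], _ => 0
  | s :: w, x => S.φ s x + L w (S.F s x)

@[simp] theorem W_nil (x : ℝ) : S.W [] x = x := rfl
@[simp] theorem W_cons (s : ι) (w : List ι) (x : ℝ) : S.W (s :: w) x = S.W w (S.F s x) := rfl
@[simp] theorem L_nil (x : ℝ) : S.L [] x = 0 := rfl
@[simp] theorem L_cons (s : ι) (w : List ι) (x : ℝ) :
    S.L (s :: w) x = S.φ s x + S.L w (S.F s x) := rfl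

theorem W_append (u v : List ι) (x : ℝ) : S.W (u ++ v) x = S.W v (S.W u x) := by
  induction u generalizing x with
  | nil => rfl
  | cons s u ih => simp [ih]

theorem L_append (u v : List ι) (x : ℝ) : S.L (u ++ v) x = S.L u x + S.L v (S.W u x) := by
  induction u generalizing x with
  | nil => simp
  | cons s u ih => simp [ih, add_assoc]

theorem continuous_L (w : List ι) : Continuous (S.L w) := by
  induction w with
  | nil => exact continuous_const
  | cons s w ih => exact (S.cont s).add (ih.comp (S.F s).continuous)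

theorem hasDeriv_W (w : List ι) (x : ℝ) :
    ∃ σ : ℝ, |σ| = 1 ∧ HasDerivAt (S.W w) (σ * Real.exp (S.L w x)) x := by
  induction w generalizing x with
  | nil =>
    refine ⟨1, abs_one, ?_⟩
    simp only [L_nil, Real.exp_zero, mul_one]
    exact hasDerivAt_id x
  | cons s w ih =>
    obtain ⟨σ1, h1, hd1⟩ := S.der s x
    obtain ⟨σ2, h2, hd2⟩ := ih (S.F s x)
    refine ⟨σ2 * σ1, by rw [abs_mul, h1, h2, one_mul], ?_⟩
    have := hd2.comp x hd1
    convert! this using 1
    rw [L_cons, Real.exp_add]
    ring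

theorem mono_W (w : List ι) : StrictMono (S.W w) ∨ StrictAnti (S.W w) :=
  (S.W w).continuous.strictMono_of_inj (S.W w).injective

theorem mvt (w : List ι) (u v : ℝ) :
    ∃ ξ ∈ uIcc u v, |S.W w u - S.W w v| = Real.exp (S.L w ξ) * |u - v| ∧
      S.W w ξ ∈ uIcc (S.W w u) (S.W w v) := by
  have main : ∀ u v : ℝ, u < v → ∃ ξ ∈ uIcc u v,
      |S.W w u - S.W w v| = Real.exp (S.L w ξ) * |u - v| ∧
      S.W w ξ ∈ uIcc (S.W w u) (S.W w v) := by
    intro u v huv
    choose σ hσ hd using S.hasDeriv_W w
    obtain ⟨ξ, hξ, hs⟩ := exists_hasDerivAt_eq_slope (S.W w) _ huv (S.W w).continuous.continuousOn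
      (fun x _ => hd x)
    refine ⟨ξ, ?_, ?_, ?_⟩
    · rw [uIcc_of_le huv.le]
      exact ⟨hξ.1.le, hξ.2.le⟩
    · rw [eq_div_iff (by linarith)] at hs
      have : |S.W w v - S.W w u| = Real.exp (S.L w ξ) * |v - u| := by
        rw [← hs, abs_mul, abs_mul, hσ, one_mul, abs_of_pos (Real.exp_pos _)]
      rw [abs_sub_comm, this, abs_sub_comm]
    · rcases S.mono_W w with h | h
      · rw [uIcc_of_le (h huv).le]
        exact ⟨(h hξ.1).le, (h hξ.2).le⟩
      · rw [uIcc_of_ge (h huv).le]
        exact ⟨(h hξ.2).le, (h hξ.1).le⟩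
  rcases lt_trichotomy u v with h | h | h
  · exact main u v h
  · subst h
    exact ⟨u, by simp, by simp, by simp⟩
  · obtain ⟨ξ, h1, h2, h3⟩ := main v u h
    refine ⟨ξ, by rwa [uIcc_comm], ?_, by rwa [uIcc_comm]⟩
    rw [abs_sub_comm, h2, abs_sub_comm]

/-- The hyperbolicity condition at the end of a word. -/
def Hyp (e : ℝ) (v : List ι) (y : ℝ) : Prop :=
  ∀ a b, v = a ++ b → e * b.length ≤ S.L b (S.W a y)

theorem Hyp.tail {e : ℝ} {s : ι} {v : List ι} {y : ℝ} (h : S.Hyp e (s :: v) y) :
    S.Hyp e v (S.F s y) := by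
  intro a b hab
  have := h (s :: a) b (by rw [hab]; rfl)
  simpa using this

theorem Hyp.drop {e : ℝ} {u v : List ι} {y : ℝ} (h : S.Hyp e (u ++ v) y) :
    S.Hyp e v (S.W u y) := by
  intro a b hab
  have := h (u ++ a) b (by rw [hab, List.append_assoc])
  rwa [W_append] at this

theorem Hyp.whole {e : ℝ} {v : List ι} {y : ℝ} (h : S.Hyp e v y) :
    e * v.length ≤ S.L v y := by
  simpa using h [] v rfl

/-- Basic distortion estimate. -/
theorem distort {e δ : ℝ} (he : 0 < e)
    (hδ : ∀ s u v, |S.F s u - S.F s v| ≤ δ → |S.φ s u - S.φ s v| ≤ e / 2) (v : List ι) :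
    ∀ y, S.Hyp e v y → ∀ u, |S.W v u - S.W v y| ≤ δ →
      |S.L v u - S.L v y| ≤ e / 2 * v.length ∧
      Real.exp (S.L v y - e / 2 * v.length) * |u - y| ≤ |S.W v u - S.W v y| := by
  induction v with
  | nil =>
    intro y _ u _
    simp
  | cons s v ih =>
    intro y hy
    have hbd : ∀ u, |S.W (s :: v) u - S.W (s :: v) y| ≤ δ →
        |S.L (s :: v) u - S.L (s :: v) y| ≤ e / 2 * (s :: v).length := by
      intro u hu
      obtain ⟨h1, h2⟩ := ih (S.F s y) (Hyp.tail S hy) (S.F s u) hu
      have h3 : |S.F s u - S.F s y| ≤ |S.W v (S.F s u) - S.W v (S.F s y)| := by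
        refine le_trans ?_ h2
        have : 1 ≤ Real.exp (S.L v (S.F s y) - e / 2 * v.length) := by
          apply Real.one_le_exp
          have := (Hyp.whole S (Hyp.tail S hy))
          have h4 : 0 ≤ e / 2 * (v.length : ℝ) := by positivity
          linarith
        exact le_mul_of_one_le_left (abs_nonneg _) this
      have h4 := hδ s u y (h3.trans hu)
      rw [L_cons, L_cons]
      calc |S.φ s u + S.L v (S.F s u) - (S.φ s y + S.L v (S.F s y))|
          = |(S.φ s u - S.φ s y) + (S.L v (S.F s u) - S.L v (S.F s y))| := by ring_nf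
        _ ≤ |S.φ s u - S.φ s y| + |S.L v (S.F s u) - S.L v (S.F s y)| := abs_add_le _ _
        _ ≤ e / 2 + e / 2 * v.length := add_le_add h4 h1
        _ = e / 2 * (s :: v).length := by
          rw [List.length_cons]
          push_cast
          ring
    intro u hu
    refine ⟨hbd u hu, ?_⟩
    obtain ⟨ξ, _, hξ2, hξ3⟩ := S.mvt (s :: v) u y
    rw [hξ2]
    apply mul_le_mul_of_nonneg_right _ (abs_nonneg _)
    apply Real.exp_le_exp.2
    have h5 : |S.W (s :: v) ξ - S.W (s :: v) y| ≤ δ :=
      le_trans (abs_sub_left_of_mem_uIcc (by rwa [uIcc_comm])) hu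
    have h6 := abs_le.1 (hbd ξ h5)
    linarith [h6.1]

/-- Sublinear distortion. -/
theorem distort_sublinear {e δ : ℝ} (he : 0 < e) (hδ0 : 0 < δ)
    (hδ : ∀ s u v, |S.F s u - S.F s v| ≤ δ → |S.φ s u - S.φ s v| ≤ e / 2) {η : ℝ}
    (hη : 0 < η) :
    ∃ K : ℝ, 0 ≤ K ∧ ∀ v y, S.Hyp e v y → ∀ u, |S.W v u - S.W v y| ≤ δ →
      |S.L v u - S.L v y| ≤ K + η * v.length := by
  obtain ⟨r, hr, hrη⟩ := S.uc η hη
  obtain ⟨j0, hj0⟩ : ∃ j0 : ℕ, δ * Real.exp (-(e / 2) * j0) ≤ r := by
    have h1 : Filter.Tendsto (fun j : ℕ => δ * Real.exp (-(e / 2) * j)) Filter.atTop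
        (nhds (δ * 0)) := by
      apply Filter.Tendsto.const_mul
      apply Real.tendsto_exp_atBot.comp
      apply Filter.Tendsto.const_mul_atTop_of_neg (by linarith)
      exact tendsto_natCast_atTop_atTop
    rw [mul_zero] at h1
    exact ((h1.eventually (gt_mem_nhds hr)).exists).imp fun _ h => h.le
  refine ⟨e / 2 * j0, by positivity, fun v => ?_⟩
  suffices h : ∀ y, S.Hyp e v y → ∀ u, |S.W v u - S.W v y| ≤ δ →
      |S.L v u - S.L v y| ≤ e / 2 * (min v.length j0 : ℕ) + η * v.length by
    intro y hy u hu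
    refine (h y hy u hu).trans ?_
    have : ((min v.length j0 : ℕ) : ℝ) ≤ j0 := by exact_mod_cast min_le_right _ _
    have h2 := mul_le_mul_of_nonneg_left this (by positivity : 0 ≤ e / 2)
    linarith
  induction v with
  | nil =>
    intro y _ u _
    simp
  | cons s v ih =>
    intro y hy u hu
    have h1 := ih (S.F s y) (Hyp.tail S hy) (S.F s u) hu
    obtain ⟨-, h2⟩ := S.distort he hδ v (S.F s y) (Hyp.tail S hy) (S.F s u) hu
    have h3 : Real.exp (e / 2 * v.length) * |S.F s u - S.F s y| ≤ δ := by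
      refine le_trans ?_ (h2.trans hu)
      apply mul_le_mul_of_nonneg_right _ (abs_nonneg _)
      apply Real.exp_le_exp.2
      have := (Hyp.whole S (Hyp.tail S hy))
      linarith
    have h4 : |S.F s u - S.F s y| ≤ δ * Real.exp (-(e / 2) * v.length) := by
      rw [neg_mul, Real.exp_neg, ← div_eq_mul_inv, le_div_iff₀ (Real.exp_pos _)]
      linarith
    rw [L_cons, L_cons]
    have h5 : |S.φ s u + S.L v (S.F s u) - (S.φ s y + S.L v (S.F s y))| ≤
        |S.φ s u - S.φ s y| + |S.L v (S.F s u) - S.L v (S.F s y)| := by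
      calc |S.φ s u + S.L v (S.F s u) - (S.φ s y + S.L v (S.F s y))|
          = |(S.φ s u - S.φ s y) + (S.L v (S.F s u) - S.L v (S.F s y))| := by ring_nf
        _ ≤ _ := abs_add_le _ _
    rcases lt_or_ge v.length j0 with hlt | hge
    · have h6 : |S.φ s u - S.φ s y| ≤ e / 2 := by
        apply hδ
        refine h4.trans ?_
        have : Real.exp (-(e / 2) * v.length) ≤ 1 := by
          apply Real.exp_le_one_iff.2
          have : 0 ≤ e / 2 * (v.length : ℝ) := by positivity
          linarith
        nlinarith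
      have h7 : min (s :: v).length j0 = min v.length j0 + 1 := by
        rw [List.length_cons]
        omega
      rw [h7, List.length_cons]
      push_cast
      have h8 : 0 ≤ η := hη.le
      push_cast at h1
      linarith
    · have h6 : |S.φ s u - S.φ s y| ≤ η := by
        apply hrη
        refine h4.trans (le_trans ?_ hj0)
        apply mul_le_mul_of_nonneg_left _ hδ0.le
        apply Real.exp_le_exp.2
        have : (j0 : ℝ) ≤ v.length := by exact_mod_cast hge
        nlinarith
      have h7 : min (s :: v).length j0 = min v.length j0 := by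
        rw [List.length_cons]
        omega
      rw [h7, List.length_cons]
      push_cast
      push_cast at h1
      linarith

/-- First passage decomposition of a word along which the (corrected) derivative grows. -/
theorem passage {e h Λ : ℝ} (he : 0 < e) (hh : 0 < h) (hΛ0 : 0 ≤ Λ)
    (hΛ : ∀ s x, |S.φ s x| ≤ Λ)
    (w : List ι) (x : ℝ) (M : ℕ) (hw : M * h ≤ S.L w x - e * w.length) :
    ∃ u : ℕ → List ι, (∀ j ≤ M, (u j).length ≤ w.length ∧ S.Hyp e (u j) x) ∧
      (∀ j j' : ℕ, j < j' → j' ≤ M → ∃ v, u j' = u j ++ v ∧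
        ((j' : ℝ) - j) * h - (Λ + e) + e * v.length ≤ S.L v (S.W (u j) x)) := by
  obtain ⟨ψ, hψ⟩ : ∃ ψ : ℕ → ℝ, ψ = fun k => S.L (w.take k) x - e * k := ⟨_, rfl⟩
  have hψ0 : ψ 0 = 0 := by simp [hψ]
  have hψn : M * h ≤ ψ w.length := by
    rw [hψ]
    simpa using hw
  -- increments
  have hinc : ∀ k < w.length, ψ (k + 1) ≤ ψ k + (Λ + e) := by
    intro k hk
    simp only [hψ]
    have h1 : w.take (k + 1) = w.take k ++ [w[k]] := by
      rw [List.take_append_getElem hk]
    rw [h1, L_append, L_cons, L_nil]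
    have := (abs_le.1 (hΛ w[k] (S.W (w.take k) x))).2
    push_cast
    linarith
  let A : ℕ → Set ℕ := fun j => {k | k ≤ w.length ∧ (j : ℝ) * h ≤ ψ k}
  let N : ℕ → ℕ := fun j => sInf (A j)
  have hNmem : ∀ j ≤ M, N j ∈ A j := by
    intro j hj
    apply Nat.sInf_mem
    refine ⟨w.length, le_rfl, le_trans ?_ hψn⟩
    apply mul_le_mul_of_nonneg_right _ hh.le
    exact_mod_cast hj
  have hNlt : ∀ j ≤ M, ∀ k < N j, ψ k < j * h := by
    intro j hj k hk
    by_contra hcon
    push Not at hcon
    have : N j ≤ k := Nat.sInf_le ⟨by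
      have := (hNmem j hj).1
      omega, hcon⟩
    omega
  have hNup : ∀ j ≤ M, ψ (N j) ≤ j * h + (Λ + e) := by
    intro j hj
    rcases Nat.eq_zero_or_pos (N j) with h0 | hpos
    · rw [h0, hψ0]
      positivity
    · obtain ⟨k, hk⟩ : ∃ k, N j = k + 1 := ⟨N j - 1, by omega⟩
      have h1 := hNlt j hj k (by omega)
      have h2 := hinc k (by
        have := (hNmem j hj).1
        omega)
      rw [hk]
      linarith
  have hNmono : ∀ j j', j ≤ j' → j' ≤ M → N j ≤ N j' := by
    intro j j' hjj hj'
    apply Nat.sInf_le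
    have := hNmem j' hj'
    refine ⟨this.1, le_trans ?_ this.2⟩
    apply mul_le_mul_of_nonneg_right _ hh.le
    exact_mod_cast hjj
  refine ⟨fun j => w.take (N j), ?_, ?_⟩
  · intro j hj
    have hNj := hNmem j hj
    refine ⟨by rw [List.length_take]; exact min_le_right _ _, ?_⟩
    intro a b hab0
    have hab : w.take (N j) = a ++ b := hab0
    have hlen : a.length + b.length = N j := by
      have := congrArg List.length hab
      rw [List.length_take, List.length_append, min_eq_left hNj.1] at this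
      omega
    have ha : w.take a.length = a := by
      have h1 : w.take a.length = (w.take (N j)).take a.length := by
        rw [List.take_take, min_eq_left (by omega)]
      rw [h1, hab, List.take_left']
      rfl
    have h1 : S.L (w.take (N j)) x = S.L a x + S.L b (S.W a x) := by
      rw [hab, L_append]
    have h2 : ψ a.length ≤ ψ (N j) := by
      rcases Nat.lt_or_ge a.length (N j) with hlt | hge
      · exact (hNlt j hj _ hlt).le.trans hNj.2
      · have : a.length = N j := by omega
        rw [this]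
    simp only [hψ, ha] at h2
    rw [h1] at h2
    have h3 : (N j : ℝ) = a.length + b.length := by
      rw [← hlen]
      push_cast
      ring
    rw [h3] at h2
    linarith
  · intro j j' hjj hj'
    have hj : j ≤ M := by omega
    have hNN := hNmono j j' hjj.le hj'
    refine ⟨(w.take (N j')).drop (N j), ?_, ?_⟩
    · have h1 : w.take (N j) = (w.take (N j')).take (N j) := by
        rw [List.take_take, min_eq_left hNN]
      show w.take (N j') = w.take (N j) ++ _
      rw [h1, List.take_append_drop]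
    · have h1 : w.take (N j') = w.take (N j) ++ (w.take (N j')).drop (N j) := by
        have h1 : w.take (N j) = (w.take (N j')).take (N j) := by
          rw [List.take_take, min_eq_left hNN]
        conv_rhs => rw [h1, List.take_append_drop]
      have h2 : S.L (w.take (N j')) x = S.L (w.take (N j)) x +
          S.L ((w.take (N j')).drop (N j)) (S.W (w.take (N j)) x) := by
        conv_lhs => rw [h1, L_append]
      have hlen : ((w.take (N j')).drop (N j)).length = N j' - N j := by
        rw [List.length_drop, List.length_take, min_eq_left (hNmem j' hj').1]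
      have h3 := (hNmem j' hj').2
      have h4 := hNup j hj
      simp only [hψ] at h3 h4
      rw [hlen, Nat.cast_sub hNN]
      show _ ≤ S.L ((w.take (N j')).drop (N j)) (S.W (w.take (N j)) x)
      linarith

end Sys

end Pool.Agent.Helper49
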