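import Pool.Agent.Helper49.Covering
import Pool.Agent.Helper49.Words

set_option autoImplicit false

open MeasureTheory Set

namespace Pool.Agent.Helper49

theorem mem_Icc_symm_iff (g : ℝ ≃ₜ ℝ) {α β : ℝ} (h : α ≤ β) (z : ℝ) :
    z ∈ Icc (min (g.symm α) (g.symm β)) (max (g.symm α) (g.symm β)) ↔ g z ∈ Icc α β := by
  rcases g.continuous.strictMono_of_inj g.injective with hg | hg
  · have h0 : ∀ a b, g.symm a ≤ b ↔ a ≤ g b := by
      intro a b
      rw [← hg.le_iff_le, g.apply_symm_apply]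
    have h0' : ∀ a b, a ≤ g.symm b ↔ g a ≤ b := by
      intro a b
      rw [← hg.le_iff_le, g.apply_symm_apply]
    have h1 : g.symm α ≤ g.symm β := by
      rw [h0, g.apply_symm_apply]
      exact h
    rw [min_eq_left h1, max_eq_right h1, mem_Icc, mem_Icc, h0, h0']
  · have h0 : ∀ a b, g.symm a ≤ b ↔ g b ≤ a := by
      intro a b
      rw [← hg.le_iff_ge, g.apply_symm_apply]
    have h0' : ∀ a b, a ≤ g.symm b ↔ b ≤ g a := by
      intro a b
      rw [← hg.le_iff_ge, g.apply_symm_apply]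
    have h1 : g.symm β ≤ g.symm α := by
      rw [h0, g.apply_symm_apply]
      exact h
    rw [min_eq_right h1, max_eq_left h1, mem_Icc, mem_Icc, h0, h0', and_comm]

theorem mem_Ioo_symm_iff (g : ℝ ≃ₜ ℝ) {α β : ℝ} (h : α ≤ β) (z : ℝ) :
    z ∈ Ioo (min (g.symm α) (g.symm β)) (max (g.symm α) (g.symm β)) ↔ g z ∈ Ioo α β := by
  rcases g.continuous.strictMono_of_inj g.injective with hg | hg
  · have h0 : ∀ a b, g.symm a < b ↔ a < g b := by
      intro a b
      rw [← hg.lt_iff_lt, g.apply_symm_apply]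
    have h0' : ∀ a b, a < g.symm b ↔ g a < b := by
      intro a b
      rw [← hg.lt_iff_lt, g.apply_symm_apply]
    have h1 : g.symm α ≤ g.symm β := by
      rw [← hg.le_iff_le, g.apply_symm_apply, g.apply_symm_apply]
      exact h
    rw [min_eq_left h1, max_eq_right h1, mem_Ioo, mem_Ioo, h0, h0']
  · have h0 : ∀ a b, g.symm a < b ↔ g b < a := by
      intro a b
      rw [← hg.lt_iff_gt, g.apply_symm_apply]
    have h0' : ∀ a b, a < g.symm b ↔ b < g a := by
      intro a b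
      rw [← hg.lt_iff_gt, g.apply_symm_apply]
    have h1 : g.symm β ≤ g.symm α := by
      rw [← hg.le_iff_ge, g.apply_symm_apply, g.apply_symm_apply]
      exact h
    rw [min_eq_right h1, max_eq_left h1, mem_Ioo, mem_Ioo, h0, h0', and_comm]

theorem abs_endpoints (g : ℝ ≃ₜ ℝ) {α β : ℝ} (h : α ≤ β) :
    |g (min (g.symm α) (g.symm β)) - g (max (g.symm α) (g.symm β))| = β - α := by
  rcases le_total (g.symm α) (g.symm β) with h1 | h1
  · rw [min_eq_left h1, max_eq_right h1, g.apply_symm_apply, g.apply_symm_apply, abs_sub_comm,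
      abs_of_nonneg (by linarith)]
  · rw [min_eq_right h1, max_eq_left h1, g.apply_symm_apply, g.apply_symm_apply,
      abs_of_nonneg (by linarith)]

/-- The symbol of a point at scale `r`. -/
noncomputable def sym (r z : ℝ) : ℕ := ⌊Int.fract z / r⌋₊

/-- The centre of the cell of a point at scale `r`. -/
noncomputable def cen (r z : ℝ) : ℝ := ⌊z⌋ + sym r z * r

theorem sym_lt {r : ℝ} (hr : 0 < r) (z : ℝ) : sym r z < ⌊1 / r⌋₊ + 1 := by
  rw [Nat.lt_succ_iff]
  apply Nat.floor_le_floor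
  apply div_le_div_of_nonneg_right (Int.fract_lt_one z).le hr.le

theorem abs_sub_cen {r : ℝ} (hr : 0 < r) (z : ℝ) : |z - cen r z| ≤ r := by
  have h1 : z = ⌊z⌋ + Int.fract z := (Int.floor_add_fract z).symm
  have h2 : (sym r z : ℝ) ≤ Int.fract z / r :=
    Nat.floor_le (div_nonneg (Int.fract_nonneg z) hr.le)
  have h3 : Int.fract z / r < sym r z + 1 := Nat.lt_floor_add_one _
  rw [le_div_iff₀ hr] at h2
  rw [div_lt_iff₀ hr] at h3
  have h4 : z - cen r z = Int.fract z - sym r z * r := by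
    unfold cen
    linarith
  rw [h4, abs_le]
  constructor
  · linarith
  · linarith

theorem cen_sub {r z z' : ℝ} (h : sym r z = sym r z') :
    cen r z' = cen r z + ((⌊z'⌋ - ⌊z⌋ : ℤ) : ℝ) := by
  unfold cen
  rw [h]
  push_cast
  ring

namespace Sys

variable {ι : Type} (S : Sys ι)

theorem abs_L_le {Λ : ℝ} (hΛ : ∀ s x, |S.φ s x| ≤ Λ) (w : List ι) (x : ℝ) :
    |S.L w x| ≤ Λ * w.length := by
  induction w generalizing x with
  | nil => simp
  | cons s w ih =>
    rw [L_cons, List.length_cons]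
    push_cast
    have h1 := abs_add_le (S.φ s x) (S.L w (S.F s x))
    have h2 := hΛ s x
    have h3 := ih (S.F s x)
    linarith

/-- Absence of resilient pairs, at the level of lifts to the line. -/
def NR : Prop := ∀ (u1 u2 u3 : List ι) (k2 k3 : ℤ) (α β : ℝ), α < β → β < α + 1 →
  (∀ t ∈ Icc α β, S.W u1 ((S.W u2).symm (t + k2)) ∈ Ioo α β) →
  (∀ t ∈ Icc α β, S.W u1 ((S.W u3).symm (t + k3)) ∈ Ioo α β) →
  ∃ t2 ∈ Icc α β, ∃ t3 ∈ Icc α β,
    S.W u1 ((S.W u2).symm (t2 + k2)) = S.W u1 ((S.W u3).symm (t3 + k3))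

theorem key (hNR : S.NR) {e : ℝ} (he : 0 < e) :
    ∃ (h C γ : ℝ) (q : ℕ), 0 < h ∧ 0 ≤ C ∧ 0 < γ ∧ ∀ n M : ℕ,
      volume {x ∈ Icc (0 : ℝ) 1 | ∃ w : List ι, w.length = n ∧ M * h ≤ S.L w x - e * n} ≤
        ENNReal.ofReal (C * ((M : ℝ) + 1) ^ q * Real.exp (e / 2 * n) *
          Real.exp (-(1 + γ) * h * M)) := by
  obtain ⟨δ, hδ0, hδ⟩ := S.uc (e / 2) (by positivity)
  obtain ⟨Λ, hΛ0, hΛ⟩ : ∃ Λ : ℝ, 0 ≤ Λ ∧ ∀ s x, |S.φ s x| ≤ Λ := by
    obtain ⟨Λ, hΛ⟩ := S.bd
    exact ⟨max Λ 0, le_max_right _ _, fun s x => (hΛ s x).trans (le_max_left _ _)⟩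
  obtain ⟨Λ', hΛ'⟩ : ∃ Λ' : ℝ, Λ' = Λ + e := ⟨_, rfl⟩
  have hΛ'0 : 0 < Λ' := by rw [hΛ']; linarith
  obtain ⟨h, hh⟩ : ∃ h : ℝ, h = Λ' + 4 := ⟨_, rfl⟩
  have hh0 : 0 < h := by rw [hh]; linarith
  obtain ⟨γ, hγ⟩ : ∃ γ : ℝ, γ = e / (2 * Λ') := ⟨_, rfl⟩
  have hγ0 : 0 < γ := by rw [hγ]; positivity
  have hγΛ : γ * Λ' = e / 2 := by
    rw [hγ]
    field_simp
  obtain ⟨r, hr⟩ : ∃ r : ℝ, r = min (δ / 4) (1 / 8) := ⟨_, rfl⟩
  have hr0 : 0 < r := by rw [hr]; positivity
  have hrδ : 4 * r ≤ δ := by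
    have : r ≤ δ / 4 := by rw [hr]; exact min_le_left _ _
    linarith
  have hr8 : r ≤ 1 / 8 := by rw [hr]; exact min_le_right _ _
  obtain ⟨q, hq⟩ : ∃ q : ℕ, q = ⌊1 / r⌋₊ + 1 := ⟨_, rfl⟩
  have hq0 : (1 : ℝ) ≤ q := by
    rw [hq]
    push_cast
    have : (0 : ℝ) ≤ (⌊1 / r⌋₊ : ℝ) := Nat.cast_nonneg _
    linarith
  obtain ⟨η, hη⟩ : ∃ η : ℝ, η = e / (4 * q) := ⟨_, rfl⟩
  have hη0 : 0 < η := by rw [hη]; positivity
  obtain ⟨K, hK0, hK⟩ := S.distort_sublinear he hδ0 hδ hη0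
  obtain ⟨θ, hθ⟩ : ∃ θ : ℝ, θ = (1 + γ) * h := ⟨_, rfl⟩
  have hθ0 : 0 < θ := by rw [hθ]; positivity
  obtain ⟨K1, hK1⟩ : ∃ K1 : ℝ, K1 = 2 * Real.exp (2 * K + (1 + γ) * Λ') := ⟨_, rfl⟩
  have hK1pos : 2 ≤ K1 := by
    rw [hK1]
    have : 1 ≤ Real.exp (2 * K + (1 + γ) * Λ') := Real.one_le_exp (by positivity)
    linarith
  refine ⟨h, 3 * (15 * K1 * Real.exp θ * q) ^ q, γ, q, hh0, by positivity, hγ0, ?_⟩
  intro n M
  obtain ⟨X0, hX0⟩ : ∃ X0 : Set ℝ, X0 = {x ∈ Icc (0 : ℝ) 1 |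
    ∃ w : List ι, w.length = n ∧ M * h ≤ S.L w x - e * n} := ⟨_, rfl⟩
  rw [← hX0]
  -- choice of the first passage words
  have hchoice : ∀ x : ℝ, ∃ u : ℕ → List ι, x ∈ X0 →
      (∀ j ≤ M, (u j).length ≤ n ∧ S.Hyp e (u j) x) ∧
      (∀ j j' : ℕ, j < j' → j' ≤ M → ∃ v, u j' = u j ++ v ∧
        ((j' : ℝ) - j) * h - Λ' + e * v.length ≤ S.L v (S.W (u j) x)) := by
    intro x
    by_cases hx : x ∈ X0
    · rw [hX0] at hx
      obtain ⟨-, w, hwn, hw⟩ := hx
      rw [← hwn] at hw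
      obtain ⟨u, hu1, hu2⟩ := S.passage he hh0 hΛ0 hΛ w x M hw
      exact ⟨u, fun _ => ⟨fun j hj => ⟨hwn ▸ (hu1 j hj).1, (hu1 j hj).2⟩, by
        rw [hΛ']; exact hu2⟩⟩
    · exact ⟨fun _ => [], fun h => absurd h hx⟩
  choose u hu using hchoice
  -- cells and intervals
  obtain ⟨c, hc⟩ : ∃ c : ℝ → ℕ → ℝ, c = fun x j => cen r (S.W (u x j) x) := ⟨_, rfl⟩
  obtain ⟨A, hA⟩ : ∃ A : ℝ → ℕ → ℝ, A = fun x j =>
    min ((S.W (u x j)).symm (c x j - 3 * r)) ((S.W (u x j)).symm (c x j + 3 * r)) := ⟨_, rfl⟩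
  obtain ⟨B, hB⟩ : ∃ B : ℝ → ℕ → ℝ, B = fun x j =>
    max ((S.W (u x j)).symm (c x j - 3 * r)) ((S.W (u x j)).symm (c x j + 3 * r)) := ⟨_, rfl⟩
  have hmem : ∀ x j z, z ∈ Icc (A x j) (B x j) ↔
      S.W (u x j) z ∈ Icc (c x j - 3 * r) (c x j + 3 * r) := by
    intro x j z
    rw [hA, hB]
    exact mem_Icc_symm_iff (S.W (u x j)) (by linarith) z
  have hmem' : ∀ x j z, z ∈ Ioo (A x j) (B x j) ↔
      S.W (u x j) z ∈ Ioo (c x j - 3 * r) (c x j + 3 * r) := by
    intro x j z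
    rw [hA, hB]
    exact mem_Ioo_symm_iff (S.W (u x j)) (by linarith) z
  have hAB : ∀ x j, A x j < B x j := by
    intro x j
    rw [hA, hB]
    apply min_lt_max.2
    intro heq
    have := (S.W (u x j)).symm.injective heq
    linarith
  have hcen : ∀ x j, |S.W (u x j) x - c x j| ≤ r := by
    intro x j
    rw [hc]
    exact abs_sub_cen hr0 _
  have hclose : ∀ x j z, S.W (u x j) z ∈ Icc (c x j - 3 * r) (c x j + 3 * r) →
      |S.W (u x j) z - S.W (u x j) x| ≤ 4 * r := by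
    intro x j z hz
    have h1 := abs_le.1 (hcen x j)
    rw [abs_le]
    constructor <;> linarith [hz.1, hz.2, h1.1, h1.2]
  -- contraction on the cells
  have hcontr : ∀ x ∈ X0, ∀ j ≤ M, ∀ z ∈ Icc (A x j) (B x j), |z - x| ≤ 4 * r := by
    intro x hx j hj z hz
    rw [hmem] at hz
    have h1 := hclose x j z hz
    have hyp := ((hu x hx).1 j hj).2
    obtain ⟨-, h2⟩ := S.distort he hδ (u x j) x hyp z (h1.trans hrδ)
    have h3 : 1 ≤ Real.exp (S.L (u x j) x - e / 2 * (u x j).length) := by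
      apply Real.one_le_exp
      have := Sys.Hyp.whole S hyp
      have h4 : 0 ≤ e / 2 * ((u x j).length : ℝ) := by positivity
      linarith
    calc |z - x| ≤ Real.exp (S.L (u x j) x - e / 2 * (u x j).length) * |z - x| :=
          le_mul_of_one_le_left (abs_nonneg _) h3
      _ ≤ 4 * r := h2.trans h1
  -- relative contraction
  have hrel : ∀ x ∈ X0, ∀ j j' : ℕ, j < j' → j' ≤ M → ∃ m : ℕ,
      (((j' : ℝ) - j) * h - Λ' ≤ Λ' * m) ∧ ∀ z ∈ Icc (A x j') (B x j'),
      |S.W (u x j) z - S.W (u x j) x| ≤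
        4 * r * Real.exp (-(((j' : ℝ) - j) * h - Λ') - e / 2 * m) := by
    intro x hx j j' hjj hj'
    obtain ⟨v, hv1, hv2⟩ := (hu x hx).2 j j' hjj hj'
    refine ⟨v.length, ?_, ?_⟩
    · have h1 := (abs_le.1 (S.abs_L_le hΛ v (S.W (u x j) x))).2
      have h2 : 0 ≤ e * (v.length : ℝ) := by positivity
      have h3 : Λ * (v.length : ℝ) ≤ Λ' * v.length := by
        apply mul_le_mul_of_nonneg_right _ (Nat.cast_nonneg _)
        linarith
      linarith
    · intro z hz
      rw [hmem] at hz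
      have h1 := hclose x j' z hz
      rw [hv1, W_append, W_append] at h1
      have hyp : S.Hyp e v (S.W (u x j) x) := by
        have := ((hu x hx).1 j' hj').2
        rw [hv1] at this
        exact Sys.Hyp.drop S this
      obtain ⟨-, h2⟩ := S.distort he hδ v _ hyp (S.W (u x j) z) (h1.trans hrδ)
      have h3 := h2.trans h1
      have h4 : Real.exp (((j' : ℝ) - j) * h - Λ' + e / 2 * v.length) *
          |S.W (u x j) z - S.W (u x j) x| ≤ 4 * r := by
        refine le_trans ?_ h3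
        apply mul_le_mul_of_nonneg_right _ (abs_nonneg _)
        apply Real.exp_le_exp.2
        linarith
      have h5 : -(((j' : ℝ) - j) * h - Λ') - e / 2 * (v.length : ℝ) =
          -(((j' : ℝ) - j) * h - Λ' + e / 2 * v.length) := by ring
      rw [h5, Real.exp_neg, ← div_eq_mul_inv, le_div_iff₀ (Real.exp_pos _)]
      linarith
  -- nesting
  have hD : ∀ j j' : ℕ, j < j' → 4 ≤ ((j' : ℝ) - j) * h - Λ' := by
    intro j j' hjj
    have h1 : (1 : ℝ) ≤ (j' : ℝ) - j := by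
      have : (j : ℝ) + 1 ≤ j' := by exact_mod_cast hjj
      linarith
    have h2 : h ≤ ((j' : ℝ) - j) * h := le_mul_of_one_le_left hh0.le h1
    linarith
  have hin : ∀ x ∈ X0, ∀ j j' : ℕ, j < j' → j' ≤ M → ∀ z ∈ Icc (A x j') (B x j'),
      z ∈ Ioo (A x j) (B x j) := by
    intro x hx j j' hjj hj' z hz
    obtain ⟨m, -, h2⟩ := hrel x hx j j' hjj hj'
    have h3 := h2 z hz
    rw [hmem']
    have h4 : Real.exp (-(((j' : ℝ) - j) * h - Λ') - e / 2 * m) ≤ 1 / 5 := by
      have h5 : (5 : ℝ) ≤ Real.exp 4 := by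
        have := Real.add_one_le_exp (4 : ℝ)
        linarith
      have h6 : Real.exp (-(((j' : ℝ) - j) * h - Λ') - e / 2 * m) ≤ Real.exp (-4) := by
        apply Real.exp_le_exp.2
        have := hD j j' hjj
        have h7 : 0 ≤ e / 2 * (m : ℝ) := by positivity
        linarith
      refine h6.trans ?_
      rw [Real.exp_neg, ← one_div]
      exact one_div_le_one_div_of_le (by norm_num) h5
    have h5 : |S.W (u x j) z - S.W (u x j) x| ≤ 4 * r * (1 / 5) :=
      h3.trans (mul_le_mul_of_nonneg_left h4 (by positivity))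
    have h6 := abs_le.1 h5
    have h7 := abs_le.1 (hcen x j)
    constructor <;> linarith [h6.1, h6.2, h7.1, h7.2]
  have hnest : ∀ x ∈ X0, ∀ j j', j < j' → j' ≤ M → A x j < A x j' ∧ B x j' < B x j := by
    intro x hx j j' hjj hj'
    exact ⟨(hin x hx j j' hjj hj' _ (left_mem_Icc.2 (hAB x j').le)).1,
      (hin x hx j j' hjj hj' _ (right_mem_Icc.2 (hAB x j').le)).2⟩
  -- ratios
  have hratio : ∀ x ∈ X0, ∀ j j' : ℕ, j < j' → j' ≤ M →
      B x j' - A x j' ≤ (K1 * Real.exp (2 * η * n)) * Real.exp (-θ * ((j' : ℝ) - j)) *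
        (B x j - A x j) := by
    intro x hx j j' hjj hj'
    obtain ⟨m, hm, h2⟩ := hrel x hx j j' hjj hj'
    obtain ⟨hlen, hyp⟩ := (hu x hx).1 j (by omega)
    have hdist : ∀ z ∈ Icc (A x j) (B x j),
        |S.L (u x j) z - S.L (u x j) x| ≤ K + η * n := by
      intro z hz
      rw [hmem] at hz
      refine (hK (u x j) x hyp z ((hclose x j z hz).trans hrδ)).trans ?_
      have : ((u x j).length : ℝ) ≤ n := by exact_mod_cast hlen
      have := mul_le_mul_of_nonneg_left this hη0.le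
      linarith
    have hab := hAB x j'
    have hab' := hAB x j
    obtain ⟨D, hDdef⟩ : ∃ D : ℝ, D = ((j' : ℝ) - j) * h - Λ' := ⟨_, rfl⟩
    rw [← hDdef] at hm h2
    obtain ⟨ξ, hξ1, hξ2, -⟩ := S.mvt (u x j) (A x j') (B x j')
    obtain ⟨ξ', hξ1', hξ2', -⟩ := S.mvt (u x j) (A x j) (B x j)
    rw [uIcc_of_le hab.le] at hξ1
    rw [uIcc_of_le hab'.le] at hξ1'
    have hg1 : |S.W (u x j) (A x j') - S.W (u x j) (B x j')| ≤
        2 * (4 * r * Real.exp (-D - e / 2 * m)) := by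
      have ha := abs_le.1 (h2 _ (left_mem_Icc.2 hab.le))
      have hb := abs_le.1 (h2 _ (right_mem_Icc.2 hab.le))
      rw [abs_le]
      constructor <;> linarith [ha.1, ha.2, hb.1, hb.2]
    have hg2 : |S.W (u x j) (A x j) - S.W (u x j) (B x j)| = 6 * r := by
      have := abs_endpoints (S.W (u x j)) (α := c x j - 3 * r) (β := c x j + 3 * r)
        (by linarith)
      rw [hA, hB]
      rw [this]
      ring
    have hLξ := (abs_le.1 (hdist ξ (Ioo_subset_Icc_self (hin x hx j j' hjj hj' ξ hξ1)))).1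
    have hLξ' := (abs_le.1 (hdist ξ' hξ1')).2
    rw [hξ2, abs_sub_comm, abs_of_pos (by linarith : 0 < B x j' - A x j')] at hg1
    rw [hξ2', abs_sub_comm, abs_of_pos (by linarith : 0 < B x j - A x j)] at hg2
    obtain ⟨l, hl⟩ : ∃ l : ℝ, l = S.L (u x j) x := ⟨_, rfl⟩
    rw [← hl] at hLξ hLξ'
    have hlow : Real.exp (l - (K + η * n)) * (B x j' - A x j') ≤
        2 * (4 * r * Real.exp (-D - e / 2 * m)) := by
      refine le_trans ?_ hg1
      apply mul_le_mul_of_nonneg_right _ (by linarith)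
      apply Real.exp_le_exp.2
      linarith
    have hupp : 6 * r ≤ Real.exp (l + (K + η * n)) * (B x j - A x j) := by
      rw [← hg2]
      apply mul_le_mul_of_nonneg_right _ (by linarith)
      apply Real.exp_le_exp.2
      linarith
    have h3 : B x j' - A x j' ≤
        2 * (4 * r * Real.exp (-D - e / 2 * m)) * Real.exp (-(l - (K + η * n))) := by
      rw [Real.exp_neg, ← div_eq_mul_inv, le_div_iff₀ (Real.exp_pos _)]
      linarith
    calc B x j' - A x j'
        ≤ 2 * (4 * r * Real.exp (-D - e / 2 * m)) * Real.exp (-(l - (K + η * n))) := h3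
      _ = (4 / 3) * Real.exp (-D - e / 2 * m) * Real.exp (-(l - (K + η * n))) * (6 * r) := by
          ring
      _ ≤ (4 / 3) * Real.exp (-D - e / 2 * m) * Real.exp (-(l - (K + η * n))) *
            (Real.exp (l + (K + η * n)) * (B x j - A x j)) := by
          apply mul_le_mul_of_nonneg_left hupp
          positivity
      _ = (4 / 3) * Real.exp (-D - e / 2 * m + 2 * K + 2 * η * n) * (B x j - A x j) := by
          have : Real.exp (-D - e / 2 * m + 2 * K + 2 * η * n) =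
              Real.exp (-D - e / 2 * m) * Real.exp (-(l - (K + η * n))) *
              Real.exp (l + (K + η * n)) := by
            rw [← Real.exp_add, ← Real.exp_add]
            congr 1
            ring
          rw [this]
          ring
      _ ≤ (4 / 3) * Real.exp (2 * K + (1 + γ) * Λ' + 2 * η * n + -θ * ((j' : ℝ) - j)) *
            (B x j - A x j) := by
          apply mul_le_mul_of_nonneg_right _ (by linarith)
          apply mul_le_mul_of_nonneg_left _ (by norm_num)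
          apply Real.exp_le_exp.2
          have h4 : γ * D ≤ e / 2 * m := by
            have := mul_le_mul_of_nonneg_left hm hγ0.le
            rw [← mul_assoc, hγΛ] at this
            exact this
          have h5 : -θ * ((j' : ℝ) - j) = -(1 + γ) * D - (1 + γ) * Λ' := by
            rw [hθ, hDdef]
            ring
          rw [h5]
          linarith
      _ = (4 / 3) * (Real.exp (2 * K + (1 + γ) * Λ') * Real.exp (2 * η * n) *
            Real.exp (-θ * ((j' : ℝ) - j))) * (B x j - A x j) := by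
          rw [← Real.exp_add, ← Real.exp_add]
      _ ≤ 2 * (Real.exp (2 * K + (1 + γ) * Λ') * Real.exp (2 * η * n) *
            Real.exp (-θ * ((j' : ℝ) - j))) * (B x j - A x j) := by
          apply mul_le_mul_of_nonneg_right _ (by linarith)
          apply mul_le_mul_of_nonneg_right (by norm_num)
          positivity
      _ = _ := by
          rw [hK1]
          ring
  -- intersection property
  have hstar : ∀ x ∈ X0, ∀ y ∈ X0, ∀ j j' b, j < j' → j' ≤ M → b ≤ M →
      sym r (S.W (u x j) x) = sym r (S.W (u x j') x) →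
      sym r (S.W (u x j) x) = sym r (S.W (u y b) y) → A x j < A y b → B y b < B x j →
      (Icc (A x j') (B x j') ∩ Icc (A y b) (B y b)).Nonempty := by
    intro x hx y hy j j' b hjj hj' hb hs1 hs2 hAA hBB
    have hc2 : c x j' = c x j + ((⌊S.W (u x j') x⌋ - ⌊S.W (u x j) x⌋ : ℤ) : ℝ) := by
      rw [hc]
      exact cen_sub hs1
    have hc3 : c y b = c x j + ((⌊S.W (u y b) y⌋ - ⌊S.W (u x j) x⌋ : ℤ) : ℝ) := by
      rw [hc]
      exact cen_sub hs2
    obtain ⟨k2, hk2⟩ : ∃ k2 : ℤ, k2 = ⌊S.W (u x j') x⌋ - ⌊S.W (u x j) x⌋ := ⟨_, rfl⟩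
    obtain ⟨k3, hk3⟩ : ∃ k3 : ℤ, k3 = ⌊S.W (u y b) y⌋ - ⌊S.W (u x j) x⌋ := ⟨_, rfl⟩
    rw [← hk2] at hc2
    rw [← hk3] at hc3
    have hJ2 : ∀ t ∈ Icc (c x j - 3 * r) (c x j + 3 * r),
        (S.W (u x j')).symm (t + k2) ∈ Icc (A x j') (B x j') := by
      intro t ht
      rw [hmem, Homeomorph.apply_symm_apply, hc2]
      constructor <;> linarith [ht.1, ht.2]
    have hJ3 : ∀ t ∈ Icc (c x j - 3 * r) (c x j + 3 * r),
        (S.W (u y b)).symm (t + k3) ∈ Icc (A y b) (B y b) := by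
      intro t ht
      rw [hmem, Homeomorph.apply_symm_apply, hc3]
      constructor <;> linarith [ht.1, ht.2]
    obtain ⟨t2, ht2, t3, ht3, heq⟩ := hNR (u x j) (u x j') (u y b) k2 k3
      (c x j - 3 * r) (c x j + 3 * r) (by linarith) (by linarith)
      (fun t ht => (hmem' x j _).1 (hin x hx j j' hjj hj' _ (hJ2 t ht)))
      (fun t ht => (hmem' x j _).1 ⟨lt_of_lt_of_le hAA (hJ3 t ht).1,
        lt_of_le_of_lt (hJ3 t ht).2 hBB⟩)
    have heq' := (S.W (u x j)).injective heq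
    exact ⟨(S.W (u x j')).symm (t2 + k2), hJ2 t2 ht2, heq' ▸ hJ3 t3 ht3⟩
  -- application of the chain lemma
  have hexp1 : 1 ≤ Real.exp (2 * η * n) := Real.one_le_exp (by positivity)
  have hK1' : 1 ≤ K1 * Real.exp (2 * η * n) :=
    one_le_mul_of_one_le_of_one_le (by linarith) hexp1
  have hchain := chain M (fun x j => sym r (S.W (u x j) x)) A B θ
    (K1 * Real.exp (2 * η * n)) 1 q hθ0.le hK1' hq0 X0
    (fun x _ j _ => hAB x j) hnest (fun x hx j j' hjj hj' _ => hratio x hx j j' hjj hj')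
    (fun x hx j hj => by
      have h1 := abs_le.1 (hcontr x hx j hj _ (left_mem_Icc.2 (hAB x j).le))
      have h2 := abs_le.1 (hcontr x hx j hj _ (right_mem_Icc.2 (hAB x j).le))
      linarith [h1.1, h2.2])
    hstar (Finset.range q) (by rw [Finset.card_range]) 0 (Nat.zero_le _) X0 Subset.rfl
    (fun x _ j _ _ => Finset.mem_range.2 (by rw [hq]; exact sym_lt hr0 _))
  rw [Finset.card_range] at hchain
  have hsub1 : X0 ⊆ ⋃ x ∈ X0, Icc (A x M) (B x M) := by
    intro x hx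
    refine mem_biUnion hx ?_
    rw [hmem]
    have := abs_le.1 (hcen x M)
    constructor <;> linarith [this.1, this.2]
  have hsub2 : (⋃ x ∈ X0, Icc (A x 0) (B x 0)) ⊆ Icc (-1) 2 := by
    apply iUnion₂_subset
    intro x hx z hz
    have h1 := abs_le.1 (hcontr x hx 0 (Nat.zero_le _) z hz)
    have h2 : x ∈ Icc (0 : ℝ) 1 := by
      rw [hX0] at hx
      exact hx.1
    constructor <;> linarith [h1.1, h1.2, h2.1, h2.2]
  have hvol2 : volume (⋃ x ∈ X0, Icc (A x 0) (B x 0)) ≤ ENNReal.ofReal 3 := by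
    refine (measure_mono hsub2).trans ?_
    rw [Real.volume_Icc]
    norm_num
  calc volume X0 ≤ volume (⋃ x ∈ X0, Icc (A x M) (B x M)) := measure_mono hsub1
    _ ≤ ENNReal.ofReal ((15 * (K1 * Real.exp (2 * η * n)) * Real.exp θ * (M + 1) * q) ^ q *
          Real.exp (-θ * ((M : ℝ) - (0 : ℕ)))) * ENNReal.ofReal 3 :=
        hchain.trans (mul_le_mul' le_rfl hvol2)
    _ = ENNReal.ofReal (3 * (15 * K1 * Real.exp θ * q) ^ q * ((M : ℝ) + 1) ^ q *
          Real.exp (e / 2 * n) * Real.exp (-(1 + γ) * h * M)) := by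
        rw [← ENNReal.ofReal_mul (by positivity)]
        congr 1
        have h1 : Real.exp (2 * η * n) ^ q = Real.exp (e / 2 * n) := by
          rw [← Real.exp_nat_mul]
          congr 1
          rw [hη]
          field_simp
          norm_num
        have h2 : Real.exp (-θ * ((M : ℝ) - (0 : ℕ))) = Real.exp (-(1 + γ) * h * M) := by
          congr 1
          rw [hθ]
          push_cast
          ring
        have h3 : (15 * (K1 * Real.exp (2 * η * n)) * Real.exp θ * ((M : ℝ) + 1) * q) ^ q =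
            (15 * K1 * Real.exp θ * q) ^ q * ((M : ℝ) + 1) ^ q * Real.exp (2 * η * n) ^ q := by
          rw [← mul_pow, ← mul_pow]
          congr 1
          ring
        rw [h2, h3, h1]
        ring

end Sys

end Pool.Agent.Helper49
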